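import Pool.Agent.H99.RG.Rk5
import Pool.Agent.H48.HC.HLF
import Pool.Agent.H48.HC.COE

/-!
# Project MP_17d720_RG, module Ab2: the abstract criterion for `p ≡ 1 mod 4`

Auxiliary lemmas: prefix ab2_. Compare `ordinary_abstract` (Pool/Agent/H48/HC/ABS.lean; complete
argument in its header). Proof of `ab2_exists`. `k j := 1` if `RankTwo p (L j)`, else `2`. `L j` monic of
natDegree `2 k_j`. natDegrees in `hfac`: `g = ∑_j k_j #(F_j →+* ℂ)`. Every root `α` of a `(L j)^σ` is a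
root of `P.map`, so `‖α‖^2 ≤ p` and `(α-1)/2` is integral (`half_integral` with `D = 2g`,
`1 + 2 * X = C 1 + C 2 * X`, `4^g = 2^(2g)`), `dvd_eval`: `2^(2 k_j) ∣ (L j)(±1)`. Since `p ∣ P.coeff g`,
`exists_dvd_coeff` gives `j` with `p ∣ u j`; RankTwo contradicts `rank_two_case`; RankFour:
`rk5_main` gives `a = 0`, `b = -2p`: `L j = X^4 - C (2 p) X^2 + C (p^2)`.

Proof of `ab2_div`. `p = 4 c + 1`. For every `σ`: `(L j)^σ (1 + 2X) = ((1 + 2X)^2 - p)^2 =
16 (X^2 + X - c)^2`. So in `ℂ[X]`, with `n = #(F_j →+* ℂ) = finrank ℚ (F j)` (`NumberField.Embeddings.card`),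
`4^g G = P(1 + 2X) = (16 (X^2 + X - c)^2)^n * R`, `R` the product of the other `(L i)^σ (1+2X)`
(`Finset.prod_erase_mul`/`Finset.mul_prod_erase`), so `(X^2 + X - C c)^(2n) ∣ G` in `ℂ[X]` (the constants are units), and in `ℤ[X]`
because the divisor is monic (`Polynomial.map_dvd_map` with the injective `Int.castRingHom ℂ`).
-/

set_option autoImplicit false

open Polynomial NumberField Pool.Agent.H99.RM Pool.Agent.H48.HC

namespace Pool.Agent.H99.RG

theorem ab2_data {R : Type} [CommRing R] [Nontrivial R] {p : ℕ} {L : R[X]} (h : RankTwo p L ∨ RankFour p L) :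
    ∃ (k : ℕ) (u : R) (U V : R[X]), L.Monic ∧ L.natDegree = 2 * k ∧ L = X ^ k * U + C (p : R) * V ∧
      U.coeff 0 = u ∧ ((k = 1 ∧ L = X ^ 2 + C u * X + C (p : R)) ∨ (k = 2 ∧ RankFour p L ∧ ∃ a : R,
        L = X ^ 4 + C a * X ^ 3 + C u * X ^ 2 + C ((p : R) * a) * X + C ((p : R) ^ 2))) := by
  rcases h with ⟨a, ha⟩ | hr4
  · have hd : (C a * X + C (p : R)).degree < ((2 : ℕ) : WithBot ℕ) := by
      refine lt_of_le_of_lt (degree_linear_le) ?_
      norm_num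
    have hLe : L = X ^ 2 + (C a * X + C (p : R)) := by rw [ha]; ring
    refine ⟨1, a, X + C a, 1, ?_, ?_, ?_, ?_, Or.inl ⟨rfl, ha⟩⟩
    · rw [hLe]
      exact monic_X_pow_add (by simpa using hd)
    · rw [hLe, natDegree_add_eq_left_of_degree_lt, natDegree_X_pow]
      rw [degree_X_pow]
      exact hd
    · rw [ha]
      ring
    · simp
  · obtain ⟨a, b, hab⟩ := id hr4
    have hd : (C a * X ^ 3 + C b * X ^ 2 + C ((p : R) * a) * X + C ((p : R) ^ 2)).degree <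
        ((4 : ℕ) : WithBot ℕ) := by
      refine lt_of_le_of_lt (degree_cubic_le) ?_
      norm_num
    have hLe : L = X ^ 4 + (C a * X ^ 3 + C b * X ^ 2 + C ((p : R) * a) * X + C ((p : R) ^ 2)) := by
      rw [hab]
      ring
    refine ⟨2, b, X ^ 2 + C a * X + C b, C a * X + C (p : R), ?_, ?_, ?_, ?_,
      Or.inr ⟨rfl, hr4, a, hab⟩⟩
    · rw [hLe]
      exact monic_X_pow_add (by simpa using hd)
    · rw [hLe, natDegree_add_eq_left_of_degree_lt, natDegree_X_pow]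
      rw [degree_X_pow]
      exact hd
    · rw [hab, C_mul, C_pow]
      ring
    · simp

theorem ab2_exists {p : ℕ} (hp : p.Prime) (h4 : p % 4 = 1) {g : ℕ} {P G : ℤ[X]} (hmon : P.Monic)
    (hdeg : P.natDegree = 2 * g)
    (hRH : ∀ α ∈ (P.map (Int.castRingHom ℂ)).roots, ‖α‖ ^ 2 ≤ (p : ℝ))
    (hG : P.comp (1 + 2 * X) = C ((4 : ℤ) ^ g) * G)
    {ι : Type} [Fintype ι] (F : ι → Type) [∀ j, Field (F j)] [∀ j, NumberField (F j)]
    [∀ j, IsTotallyReal (F j)]
    (hprime : ∀ j, Prime ((p : ℕ) : 𝓞 (F j))) (L : ∀ j, (𝓞 (F j))[X])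
    (hL : ∀ j, RankTwo p (L j) ∨ RankFour p (L j))
    (hfac : P.map (Int.castRingHom ℂ) =
      ∏ j, ∏ σ : F j →+* ℂ, (L j).map (σ.comp (algebraMap (𝓞 (F j)) (F j))))
    (hdvd : (p : ℤ) ∣ P.coeff g) :
    ∃ j, RankFour p (L j) ∧
      L j = X ^ 4 - C (2 * (p : 𝓞 (F j))) * X ^ 2 + C ((p : 𝓞 (F j)) ^ 2) := by
  classical
  have hG' : P.comp (C 1 + C 2 * X) = C ((2 : ℤ) ^ (2 * g)) * G := by
    have e1 : (C 1 + C 2 * X : ℤ[X]) = 1 + 2 * X := by
      rw [C_1]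
      rfl
    rw [e1, hG, pow_mul]
    norm_num
  have hdata := fun j => ab2_data (hL j)
  choose k u U V hmonL hdegL hLf hU hcase using hdata
  have hmonP : (P.map (Int.castRingHom ℂ)).Monic := hmon.map _
  have hg : g = ∑ j, k j * Fintype.card (F j →+* ℂ) := by
    have h1 := congrArg natDegree hfac
    rw [hmon.natDegree_map, hdeg, natDegree_prod_of_monic _ _
      (fun j _ => monic_prod_of_monic _ _ (fun σ _ => (hmonL j).map _))] at h1
    have h2 : ∀ j, (∏ σ : F j →+* ℂ, (L j).map (σ.comp (algebraMap (𝓞 (F j)) (F j)))).natDegree =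
        2 * (k j * Fintype.card (F j →+* ℂ)) := by
      intro j
      rw [natDegree_prod_of_monic _ _ (fun σ _ => (hmonL j).map _)]
      simp only [(hmonL j).natDegree_map, hdegL, Finset.sum_const, Finset.card_univ, smul_eq_mul]
      ring
    rw [Finset.sum_congr rfl (fun j _ => h2 j), ← Finset.mul_sum] at h1
    omega
  have hroots : ∀ j (σ : F j →+* ℂ), ∀ α ∈ ((L j).map (σ.comp (algebraMap (𝓞 (F j)) (F j)))).roots,
      α ∈ (P.map (Int.castRingHom ℂ)).roots := by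
    intro j σ α hα
    have hd : (L j).map (σ.comp (algebraMap (𝓞 (F j)) (F j))) ∣ P.map (Int.castRingHom ℂ) := by
      rw [hfac]
      exact (Finset.dvd_prod_of_mem (fun σ : F j →+* ℂ => (L j).map (σ.comp (algebraMap (𝓞 (F j)) (F j))))
        (Finset.mem_univ σ)).trans (Finset.dvd_prod_of_mem
          (fun j => ∏ σ : F j →+* ℂ, (L j).map (σ.comp (algebraMap (𝓞 (F j)) (F j)))) (Finset.mem_univ j))
    exact Multiset.mem_of_le (roots.le_of_dvd hmonP.ne_zero hd) hα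
  have hR : ∀ j (σ : F j →+* ℂ), ∀ α ∈ ((L j).map (σ.comp (algebraMap (𝓞 (F j)) (F j)))).roots,
      ‖α‖ ^ 2 ≤ (p : ℝ) := fun j σ α hα => hRH α (hroots j σ α hα)
  have hE : ∀ j, (2 : 𝓞 (F j)) ^ (2 * k j) ∣ (L j).eval 1 ∧ (2 : 𝓞 (F j)) ^ (2 * k j) ∣ (L j).eval (-1) := by
    intro j
    obtain ⟨σ⟩ : Nonempty (F j →+* ℂ) := inferInstance
    have h1 := dvd_eval (L j) (hmonL j) σ (fun α hα => half_integral hmon hdeg hG' (hroots j σ α hα))
    rw [hdegL] at h1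
    exact h1
  obtain ⟨j0, hj0⟩ := exists_dvd_coeff hp F hprime k L U V u hLf hU P g hg hfac hdvd
  rcases hcase j0 with ⟨h1, h2⟩ | ⟨h1, hr4, a, h2⟩
  · exfalso
    have h3 := (hE j0).1
    rw [h1] at h3
    norm_num at h3
    exact rank_two_case hp h4 h2 (hR j0) h3 hj0
  · refine ⟨j0, hr4, ?_⟩
    have h3 := (hE j0).1
    have h5 := (hE j0).2
    rw [h1] at h3 h5
    norm_num at h3 h5
    obtain ⟨ha, hb⟩ := rk5_main hp h4 (hprime j0) h2 (hR j0) h3 h5 hj0
    rw [h2, ha, hb]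
    simp only [C_mul, C_neg, C_0, mul_zero]
    ring

theorem ab2_div {p : ℕ} (h4 : p % 4 = 1) {g : ℕ} {P G : ℤ[X]}
    (hG : P.comp (1 + 2 * X) = C ((4 : ℤ) ^ g) * G)
    {ι : Type} [Fintype ι] (F : ι → Type) [∀ j, Field (F j)] [∀ j, NumberField (F j)]
    (L : ∀ j, (𝓞 (F j))[X])
    (hfac : P.map (Int.castRingHom ℂ) =
      ∏ j, ∏ σ : F j →+* ℂ, (L j).map (σ.comp (algebraMap (𝓞 (F j)) (F j))))
    (j : ι) (hj : L j = X ^ 4 - C (2 * (p : 𝓞 (F j))) * X ^ 2 + C ((p : 𝓞 (F j)) ^ 2)) :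
    (X ^ 2 + X - C (((p - 1) / 4 : ℕ) : ℤ)) ^ (2 * Module.finrank ℚ (F j)) ∣ G := by
  classical
  obtain ⟨c, hc⟩ : ∃ c : ℕ, p = 4 * c + 1 := ⟨p / 4, by omega⟩
  have hc' : (p - 1) / 4 = c := by omega
  rw [hc']
  have hinj : Function.Injective (Int.castRingHom ℂ) := RingHom.injective_int _
  have hmon : ((X ^ 2 + X - C ((c : ℕ) : ℤ)) ^ (2 * Module.finrank ℚ (F j)) : ℤ[X]).Monic := by
    refine Monic.pow ?_ _
    have e : (X ^ 2 + X - C ((c : ℕ) : ℤ) : ℤ[X]) = X ^ 2 + (X - C ((c : ℕ) : ℤ)) := by ring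
    rw [e]
    refine monic_X_pow_add ?_
    rw [degree_X_sub_C]
    norm_num
  rw [← map_dvd_map (Int.castRingHom ℂ) hinj hmon]
  have hcard : Fintype.card (F j →+* ℂ) = Module.finrank ℚ (F j) := NumberField.Embeddings.card _ _
  have hone : ∀ σ : F j →+* ℂ, ((L j).map (σ.comp (algebraMap (𝓞 (F j)) (F j)))).comp (1 + 2 * X) =
      C 16 * (X ^ 2 + X - C (c : ℂ)) ^ 2 := by
    intro σ
    have hp' : (p : ℂ[X]) = 4 * (c : ℂ[X]) + 1 := by
      rw [hc]
      push_cast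
      ring
    rw [hj]
    simp only [Polynomial.map_add, Polynomial.map_sub, Polynomial.map_mul, Polynomial.map_pow,
      map_X, map_mul, map_pow, map_natCast, Polynomial.map_natCast, map_ofNat,
      Polynomial.map_ofNat, add_comp, sub_comp, mul_comp, pow_comp, X_comp,
      natCast_comp, ofNat_comp]
    rw [hp']
    ring
  have hcomp := congrArg (fun Q : ℂ[X] => Q.comp (1 + 2 * X)) hfac
  have hl : (P.map (Int.castRingHom ℂ)).comp (1 + 2 * X) =
      C ((4 : ℂ) ^ g) * G.map (Int.castRingHom ℂ) := by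
    have h1 := congrArg (fun Q : ℤ[X] => Q.map (Int.castRingHom ℂ)) hG
    simp only [Polynomial.map_comp, Polynomial.map_add, Polynomial.map_mul, Polynomial.map_one,
      map_X, Polynomial.map_ofNat, map_pow, map_ofNat] at h1
    rw [h1, C_pow]
    congr 1
    rw [Polynomial.map_pow, Polynomial.map_ofNat]
    rfl
  rw [hl, prod_comp, ← Finset.mul_prod_erase _ _ (Finset.mem_univ j), prod_comp,
    Finset.prod_congr rfl (fun σ _ => hone σ), Finset.prod_const, Finset.card_univ, hcard] at hcomp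
  have hu4 : IsUnit (C ((4 : ℂ) ^ g) : ℂ[X]) := isUnit_C.2 (IsUnit.mk0 _ (pow_ne_zero _ (by norm_num)))
  have hd : (X ^ 2 + X - C (c : ℂ)) ^ (2 * Module.finrank ℚ (F j)) ∣
      C ((4 : ℂ) ^ g) * G.map (Int.castRingHom ℂ) := by
    rw [hcomp]
    refine dvd_mul_of_dvd_left ?_ _
    rw [mul_pow, pow_mul]
    exact dvd_mul_left _ _
  have hd2 := (hu4.dvd_mul_left).1 hd
  have e2 : ((X ^ 2 + X - C ((c : ℕ) : ℤ)) ^ (2 * Module.finrank ℚ (F j)) : ℤ[X]).map
      (Int.castRingHom ℂ) = (X ^ 2 + X - C (c : ℂ)) ^ (2 * Module.finrank ℚ (F j)) := by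
    simp only [Polynomial.map_add, Polynomial.map_sub, Polynomial.map_pow, map_X,
      map_natCast, Polynomial.map_natCast]
  rw [e2]
  exact hd2

end Pool.Agent.H99.RG
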