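import Pool.Agent.H99.RG.Bv
import Pool.Agent.H99.RM.Div

/-!
# Project MP_17d720_RG, module Bet: 2-adic properties of `BV r S ∅ #S (1 + 2X)`

Auxiliary lemmas: prefix bet_. This is the analogue of Pool/Agent/H99/RM/Div.lean (`div_one`,
`div_transfer`) for the polynomial `t = 1 + 2X ∈ ℤ[X]` instead of `t = 1`. Write `b(S) = BV r S ∅ #S t`,
`χ_T(j) = ∏_{i ∈ T} χ (r i - r j) = ± 1` for `j ∉ T` (`div_chi`), `q = #K` odd.

`bet_split`: for `S` nonempty, as in `div_LS_split` (use `BV_none` for `T = ∅`, `BV_prod` for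
`T ≠ ∅` with `B = S \ T`, `div_sum_split` or its proof over `ℤ[X]`):
`∑_{T ⊆ S} BV r T (S \ T) #S t = V + (b(S) + ∑_{∅ ≠ T ⊊ S} b(T) ∏_{j ∈ S \ T} (t - χ_T(j)))`,
`V = ∑_{i < #S} (2X)^i (q-1)^(#S-1-i)`; the left side is divisible by `2^#S` (`BV_pat`).

`bet_one`: strong induction on `#S`: `2^(#S-1)` divides `V` (`q - 1` even), `b(T)` is divisible by
`2^(#T-1)`, and every factor `t - χ_T(j)` is `2X` or `2X+2`, so the product is divisible by
`2^(#S-#T)`.

`bet_transfer`: strong induction on `#S`: subtract the two splittings. `V - V' =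
∑_i (2X)^i ((q-1)^(#S-1-i) - (q'-1)^(#S-1-i))`: for `i = #S-1` the term is `0`, for `i < #S - 1` both
`(q-1)^(#S-1-i)` and `(q'-1)^(#S-1-i)` are divisible by `4^(#S-1-i)`, hence the term by
`2^i 2^(2(#S-1-i))`, a multiple of `2^#S`. The products agree in the two fields and are divisible by
`2^(#S-#T)`, and `b(T) - b'(T)` is divisible by `2^#T`.

`bet_sq`: strong induction on `#S`. All `χ_T(j) = 1`, so
`b(S) = (multiple of 2^#S) - V - ∑_{∅ ≠ T ⊊ S} b(T) (2X)^(#S-#T)`; modulo `2^#S`: `V ≡ (2X)^(#S-1)`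
and `b(T) (2X)^(#S-#T) ≡ 2^(#T-1) X^(#T-1) (2X)^(#S-#T) = (2X)^(#S-1)`; the number of `T` is
`2^#S - 2`, even, and `2 (2X)^(#S-1) ≡ 0`.
-/

set_option autoImplicit false

namespace Pool.Agent.H99.RG

open Polynomial Finset Pool.Agent.H99.RM

variable {K : Type} [Field K] [Fintype K] [DecidableEq K] {ι : Type} [DecidableEq ι]

theorem bet_sum_split {S : Finset ι} (hS : S.Nonempty) (f : Finset ι → ℤ[X]) :
    ∑ T ∈ S.powerset, f T = f ∅ + (f S + ∑ T ∈ (S.powerset.erase ∅).erase S, f T) := by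
  have h1 : (∅ : Finset ι) ∈ S.powerset := Finset.empty_mem_powerset S
  have h2 : S ∈ S.powerset.erase ∅ :=
    Finset.mem_erase.2 ⟨Finset.nonempty_iff_ne_empty.1 hS, Finset.mem_powerset_self S⟩
  rw [← Finset.add_sum_erase _ f h1, ← Finset.add_sum_erase _ f h2]

theorem bet_fac (r : ι → K) (hr : Function.Injective r) {S T : Finset ι} (hT : T ⊆ S) :
    (2 : ℤ[X]) ^ (S.card - T.card) ∣
      ∏ j ∈ S \ T, ((1 + 2 * X : ℤ[X]) -
        ((∏ i ∈ T, quadraticChar K (r i - r j) : ℤ) : ℤ[X])) := by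
  have h1 : (2 : ℤ[X]) ^ (S.card - T.card) = ∏ _j ∈ S \ T, (2 : ℤ[X]) := by
    rw [Finset.prod_const, Finset.card_sdiff_of_subset hT]
  rw [h1]
  refine Finset.prod_dvd_prod_of_dvd _ _ fun j hj => ?_
  rcases div_chi r hr T (Finset.mem_sdiff.1 hj).2 with h | h <;> rw [h]
  · exact ⟨X, by push_cast; ring⟩
  · exact ⟨X + 1, by push_cast; ring⟩

omit [DecidableEq K] in
theorem bet_V (hq : 4 ∣ Fintype.card K - 1) {n : ℕ} (hn : 1 ≤ n) :
    (2 : ℤ[X]) ^ n ∣ (∑ i ∈ range n, (2 * X : ℤ[X]) ^ i *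
      ((((Fintype.card K : ℤ) - 1 : ℤ) : ℤ[X])) ^ (n - 1 - i)) - (2 * X : ℤ[X]) ^ (n - 1) := by
  classical
  obtain ⟨m, rfl⟩ : ∃ m, n = m + 1 := ⟨n - 1, by omega⟩
  rw [Finset.sum_range_succ]
  have e : m + 1 - 1 - m = 0 := by omega
  rw [e, pow_zero, mul_one, Nat.add_sub_cancel, add_sub_cancel_right]
  refine Finset.dvd_sum fun i hi => ?_
  have hi' := Finset.mem_range.1 hi
  have h1 : (2 : ℤ[X]) ^ (2 * (m - i)) ∣ ((((Fintype.card K : ℤ) - 1 : ℤ) : ℤ[X])) ^ (m - i) := by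
    obtain ⟨c, hc⟩ := div_pow4 hq (m - i)
    refine ⟨(c : ℤ[X]), ?_⟩
    have h3 := congrArg (fun z : ℤ => (z : ℤ[X])) hc
    simp only [Int.cast_pow, Int.cast_mul, Int.cast_ofNat] at h3
    exact h3
  have h2 : (2 : ℤ[X]) ^ i ∣ (2 * X : ℤ[X]) ^ i := by
    rw [mul_pow]
    exact Dvd.intro _ rfl
  have h3 := mul_dvd_mul h2 h1
  rw [← pow_add] at h3
  exact dvd_trans (pow_dvd_pow 2 (by omega)) h3

omit [DecidableEq K] in
theorem bet_even (hK : ringChar K ≠ 2) : (2 : ℤ) ∣ (Fintype.card K : ℤ) - 1 := by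
  have h := FiniteField.odd_card_of_char_ne_two hK
  obtain ⟨b, hb⟩ := Nat.odd_iff.2 h
  exact ⟨b, by rw [hb]; push_cast; ring⟩

omit [DecidableEq K] in
theorem bet_V1 (hK : ringChar K ≠ 2) (n : ℕ) :
    (2 : ℤ[X]) ^ (n - 1) ∣ ∑ i ∈ range n, (2 * X : ℤ[X]) ^ i *
      ((((Fintype.card K : ℤ) - 1 : ℤ) : ℤ[X])) ^ (n - 1 - i) := by
  refine Finset.dvd_sum fun i hi => ?_
  have hi' := Finset.mem_range.1 hi
  have h1 : (2 : ℤ[X]) ∣ ((((Fintype.card K : ℤ) - 1 : ℤ) : ℤ[X])) := by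
    obtain ⟨c, hc⟩ := bet_even hK
    exact ⟨(c : ℤ[X]), by rw [hc]; push_cast; ring⟩
  have h2 : (2 : ℤ[X]) ∣ (2 * X : ℤ[X]) := Dvd.intro _ rfl
  have h3 := mul_dvd_mul (pow_dvd_pow_of_dvd h2 i) (pow_dvd_pow_of_dvd h1 (n - 1 - i))
  rw [← pow_add] at h3
  have e : i + (n - 1 - i) = n - 1 := by omega
  rw [e] at h3
  exact h3

theorem bet_split (hK : ringChar K ≠ 2) (r : ι → K) (hr : Function.Injective r)
    {S : Finset ι} (hS : S.Nonempty) :
    ∑ T ∈ S.powerset, BV r T (S \ T) S.card (1 + 2 * X : ℤ[X]) =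
      (∑ i ∈ range S.card, (2 * X : ℤ[X]) ^ i *
          ((((Fintype.card K : ℤ) - 1 : ℤ) : ℤ[X])) ^ (S.card - 1 - i)) +
        (BV r S ∅ S.card (1 + 2 * X : ℤ[X]) +
        ∑ T ∈ (S.powerset.erase ∅).erase S, BV r T ∅ T.card (1 + 2 * X : ℤ[X]) *
          ∏ j ∈ S \ T, ((1 + 2 * X : ℤ[X]) -
            ((∏ i ∈ T, quadraticChar K (r i - r j) : ℤ) : ℤ[X]))) := by
  rw [bet_sum_split hS]
  congr 1
  · rw [Finset.sdiff_empty, BV_none r hr S]
    refine Finset.sum_congr rfl fun i _ => ?_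
    congr 2
    ring
  · congr 1
    · rw [Finset.sdiff_self]
    · refine Finset.sum_congr rfl fun T hT => ?_
      obtain ⟨hTS, hTn, hTc⟩ := div_mem hT
      have h1 : S.card = T.card + (S \ T).card := by
        rw [Finset.card_sdiff_of_subset hTS]
        have := Finset.card_le_card hTS
        omega
      have h2 := BV_prod hK r hr hTn (B := S \ T) Finset.disjoint_sdiff (1 + 2 * X : ℤ[X])
      rw [← h1] at h2
      exact h2

theorem bet_one (hK : ringChar K ≠ 2) (r : ι → K) (hr : Function.Injective r)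
    (S : Finset ι) (hS : S.Nonempty) :
    (2 : ℤ[X]) ^ (S.card - 1) ∣ BV r S ∅ S.card (1 + 2 * X : ℤ[X]) := by
  induction hn : S.card using Nat.strong_induction_on generalizing S with
  | _ n ih =>
    subst hn
    have h1 := bet_split hK r hr hS
    have h2' : BV r S ∅ S.card (1 + 2 * X : ℤ[X]) =
        (∑ T ∈ S.powerset, BV r T (S \ T) S.card (1 + 2 * X : ℤ[X])) -
        (∑ i ∈ range S.card, (2 * X : ℤ[X]) ^ i *
          ((((Fintype.card K : ℤ) - 1 : ℤ) : ℤ[X])) ^ (S.card - 1 - i)) -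
        ∑ T ∈ (S.powerset.erase ∅).erase S, BV r T ∅ T.card (1 + 2 * X : ℤ[X]) *
          ∏ j ∈ S \ T, ((1 + 2 * X : ℤ[X]) -
            ((∏ i ∈ T, quadraticChar K (r i - r j) : ℤ) : ℤ[X])) := by
      rw [h1]
      ring
    rw [h2']
    refine dvd_sub (dvd_sub ?_ ?_) ?_
    · exact dvd_trans (pow_dvd_pow 2 (by omega)) (BV_pat r S S.card _)
    · exact bet_V1 hK S.card
    · refine Finset.dvd_sum fun T hT => ?_
      obtain ⟨hTS, hTn, hTc⟩ := div_mem hT
      have h3 := ih T.card hTc T hTn rfl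
      have h4 := bet_fac r hr hTS
      have hT1 : 1 ≤ T.card := Finset.card_pos.2 hTn
      have h5 := mul_dvd_mul h3 h4
      rw [← pow_add] at h5
      have h6 : T.card - 1 + (S.card - T.card) = S.card - 1 := by omega
      rw [h6] at h5
      exact h5

theorem bet_transfer {K' : Type} [Field K'] [Fintype K'] [DecidableEq K']
    (hq : 4 ∣ Fintype.card K - 1) (hq' : 4 ∣ Fintype.card K' - 1) (r : ι → K) (r' : ι → K')
    (hr : Function.Injective r) (hr' : Function.Injective r')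
    (h : ∀ i j, i ≠ j → quadraticChar K (r i - r j) = quadraticChar K' (r' i - r' j))
    (S : Finset ι) (hS : S.Nonempty) :
    (2 : ℤ[X]) ^ S.card ∣
      BV r S ∅ S.card (1 + 2 * X : ℤ[X]) - BV r' S ∅ S.card (1 + 2 * X : ℤ[X]) := by
  have hK := div_ringChar hq
  have hK' := div_ringChar hq'
  induction hn : S.card using Nat.strong_induction_on generalizing S with
  | _ n ih =>
    subst hn
    have hc : 1 ≤ S.card := Finset.card_pos.2 hS
    have h1 := bet_split hK r hr hS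
    have h1' := bet_split hK' r' hr' hS
    have h3 : ∑ T ∈ (S.powerset.erase ∅).erase S, (BV r T ∅ T.card (1 + 2 * X : ℤ[X]) -
          BV r' T ∅ T.card (1 + 2 * X : ℤ[X])) *
          ∏ j ∈ S \ T, ((1 + 2 * X : ℤ[X]) -
            ((∏ i ∈ T, quadraticChar K (r i - r j) : ℤ) : ℤ[X])) =
        ∑ T ∈ (S.powerset.erase ∅).erase S, BV r T ∅ T.card (1 + 2 * X : ℤ[X]) *
          ∏ j ∈ S \ T, ((1 + 2 * X : ℤ[X]) -
            ((∏ i ∈ T, quadraticChar K (r i - r j) : ℤ) : ℤ[X])) -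
        ∑ T ∈ (S.powerset.erase ∅).erase S, BV r' T ∅ T.card (1 + 2 * X : ℤ[X]) *
          ∏ j ∈ S \ T, ((1 + 2 * X : ℤ[X]) -
            ((∏ i ∈ T, quadraticChar K' (r' i - r' j) : ℤ) : ℤ[X])) := by
      rw [← Finset.sum_sub_distrib]
      refine Finset.sum_congr rfl fun T _ => ?_
      have h4 : ∏ j ∈ S \ T, ((1 + 2 * X : ℤ[X]) -
            ((∏ i ∈ T, quadraticChar K (r i - r j) : ℤ) : ℤ[X])) =
          ∏ j ∈ S \ T, ((1 + 2 * X : ℤ[X]) -
            ((∏ i ∈ T, quadraticChar K' (r' i - r' j) : ℤ) : ℤ[X])) := by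
        refine Finset.prod_congr rfl fun j hj => ?_
        congr 2
        refine Finset.prod_congr rfl fun i hi => ?_
        refine h i j ?_
        intro hij
        exact (Finset.mem_sdiff.1 hj).2 (hij ▸ hi)
      rw [h4]
      ring
    have h2 : BV r S ∅ S.card (1 + 2 * X : ℤ[X]) - BV r' S ∅ S.card (1 + 2 * X : ℤ[X]) =
        (∑ T ∈ S.powerset, BV r T (S \ T) S.card (1 + 2 * X : ℤ[X])) -
        (∑ T ∈ S.powerset, BV r' T (S \ T) S.card (1 + 2 * X : ℤ[X])) -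
        (((∑ i ∈ range S.card, (2 * X : ℤ[X]) ^ i *
          ((((Fintype.card K : ℤ) - 1 : ℤ) : ℤ[X])) ^ (S.card - 1 - i)) -
            (2 * X : ℤ[X]) ^ (S.card - 1)) -
        ((∑ i ∈ range S.card, (2 * X : ℤ[X]) ^ i *
          ((((Fintype.card K' : ℤ) - 1 : ℤ) : ℤ[X])) ^ (S.card - 1 - i)) -
            (2 * X : ℤ[X]) ^ (S.card - 1))) -
        ∑ T ∈ (S.powerset.erase ∅).erase S, (BV r T ∅ T.card (1 + 2 * X : ℤ[X]) -
          BV r' T ∅ T.card (1 + 2 * X : ℤ[X])) *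
          ∏ j ∈ S \ T, ((1 + 2 * X : ℤ[X]) -
            ((∏ i ∈ T, quadraticChar K (r i - r j) : ℤ) : ℤ[X])) := by
      rw [h3, h1, h1']
      ring
    rw [h2]
    refine dvd_sub (dvd_sub (dvd_sub ?_ ?_) (dvd_sub ?_ ?_)) ?_
    · exact BV_pat r S S.card _
    · exact BV_pat r' S S.card _
    · exact bet_V hq hc
    · exact bet_V hq' hc
    · refine Finset.dvd_sum fun T hT => ?_
      obtain ⟨hTS, hTn, hTc⟩ := div_mem hT
      have h3 := ih T.card hTc T hTn rfl
      have h4 := bet_fac r hr hTS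
      have h5 := mul_dvd_mul h3 h4
      rw [← pow_add] at h5
      have h6 : T.card + (S.card - T.card) = S.card := by omega
      rw [h6] at h5
      exact h5

theorem bet_sq (hq : 4 ∣ Fintype.card K - 1) (r : ι → K) (hr : Function.Injective r)
    (h : ∀ i j, i ≠ j → quadraticChar K (r i - r j) = 1) (S : Finset ι) (hS : S.Nonempty) :
    (2 : ℤ[X]) ^ S.card ∣
      BV r S ∅ S.card (1 + 2 * X : ℤ[X]) - (2 * X : ℤ[X]) ^ (S.card - 1) := by
  have hK := div_ringChar hq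
  induction hn : S.card using Nat.strong_induction_on generalizing S with
  | _ n ih =>
    subst hn
    have hc : 1 ≤ S.card := Finset.card_pos.2 hS
    have h1 := bet_split hK r hr hS
    have hcard : ((((S.powerset.erase ∅).erase S).card : ℕ) : ℤ[X]) + 2 = 2 ^ S.card := by
      have k1 : (∅ : Finset ι) ∈ S.powerset := Finset.empty_mem_powerset S
      have k2 : S ∈ S.powerset.erase ∅ :=
        Finset.mem_erase.2 ⟨Finset.nonempty_iff_ne_empty.1 hS, Finset.mem_powerset_self S⟩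
      have k3 := Finset.card_erase_add_one k2
      have k4 := Finset.card_erase_add_one k1
      rw [Finset.card_powerset] at k4
      have k5 : ((S.powerset.erase ∅).erase S).card + 2 = 2 ^ S.card := by omega
      exact_mod_cast k5
    have hprod : ∀ T ∈ (S.powerset.erase ∅).erase S, ∏ j ∈ S \ T, ((1 + 2 * X : ℤ[X]) -
        ((∏ i ∈ T, quadraticChar K (r i - r j) : ℤ) : ℤ[X])) =
          (2 * X : ℤ[X]) ^ (S.card - T.card) := by
      intro T hT
      obtain ⟨hTS, hTn, hTc⟩ := div_mem hT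
      rw [← Finset.card_sdiff_of_subset hTS, ← Finset.prod_const]
      refine Finset.prod_congr rfl fun j hj => ?_
      have k : (∏ i ∈ T, quadraticChar K (r i - r j) : ℤ) = 1 := by
        refine Finset.prod_eq_one fun i hi => ?_
        refine h i j ?_
        intro hij
        exact (Finset.mem_sdiff.1 hj).2 (hij ▸ hi)
      rw [k]
      push_cast
      ring
    have h3 : ∑ T ∈ (S.powerset.erase ∅).erase S, (BV r T ∅ T.card (1 + 2 * X : ℤ[X]) -
          (2 * X : ℤ[X]) ^ (T.card - 1)) * (2 * X : ℤ[X]) ^ (S.card - T.card) =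
        ∑ T ∈ (S.powerset.erase ∅).erase S, BV r T ∅ T.card (1 + 2 * X : ℤ[X]) *
          ∏ j ∈ S \ T, ((1 + 2 * X : ℤ[X]) -
            ((∏ i ∈ T, quadraticChar K (r i - r j) : ℤ) : ℤ[X])) -
        ((((S.powerset.erase ∅).erase S).card : ℕ) : ℤ[X]) * (2 * X : ℤ[X]) ^ (S.card - 1) := by
      rw [← nsmul_eq_mul, ← Finset.sum_const, ← Finset.sum_sub_distrib]
      refine Finset.sum_congr rfl fun T hT => ?_
      obtain ⟨hTS, hTn, hTc⟩ := div_mem hT
      have hT1 : 1 ≤ T.card := Finset.card_pos.2 hTn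
      rw [hprod T hT, sub_mul, ← pow_add]
      congr 2
      omega
    have h2 : BV r S ∅ S.card (1 + 2 * X : ℤ[X]) - (2 * X : ℤ[X]) ^ (S.card - 1) =
        (∑ T ∈ S.powerset, BV r T (S \ T) S.card (1 + 2 * X : ℤ[X])) -
        ((∑ i ∈ range S.card, (2 * X : ℤ[X]) ^ i *
          ((((Fintype.card K : ℤ) - 1 : ℤ) : ℤ[X])) ^ (S.card - 1 - i)) -
            (2 * X : ℤ[X]) ^ (S.card - 1)) -
        (∑ T ∈ (S.powerset.erase ∅).erase S, (BV r T ∅ T.card (1 + 2 * X : ℤ[X]) -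
          (2 * X : ℤ[X]) ^ (T.card - 1)) * (2 * X : ℤ[X]) ^ (S.card - T.card)) -
        2 ^ S.card * (2 * X : ℤ[X]) ^ (S.card - 1) := by
      rw [h3, h1, ← hcard]
      ring
    rw [h2]
    refine dvd_sub (dvd_sub (dvd_sub ?_ ?_) ?_) (Dvd.intro _ rfl)
    · exact BV_pat r S S.card _
    · exact bet_V hq hc
    · refine Finset.dvd_sum fun T hT => ?_
      obtain ⟨hTS, hTn, hTc⟩ := div_mem hT
      have h4 := ih T.card hTc T hTn rfl
      have h5 : (2 : ℤ[X]) ^ (S.card - T.card) ∣ (2 * X : ℤ[X]) ^ (S.card - T.card) := by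
        rw [mul_pow]
        exact Dvd.intro _ rfl
      have h6 := mul_dvd_mul h4 h5
      rw [← pow_add] at h6
      have h7 : T.card + (S.card - T.card) = S.card := by omega
      rw [h7] at h6
      exact h6

end Pool.Agent.H99.RG
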