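import Pool.Agent.H99.RG.Def
import Pool.Agent.H99.RM.Rec2
import Pool.Agent.H99.RM.Pat

/-!
# Project MP_17d720_RG, module Bv: the homogeneous sums `BV`

Auxiliary lemmas: prefix bv_. Proofs (write `A_k = AS r S B k`, `A'_k = AS r S (insert j B) k`,
`χ_j = ∏_{i ∈ S} χ (r i - r j)`, `q = #K`).

`BV_insert`: by `AS_at_zero` and `AS_insert`, `A'_0 = 1 = A_0`, `A'_{k+1} = A_{k+1} - χ_j A_k`. So
`BV(m+1)' = ∑_{k ≤ m} A'_k t^(m-k) = (∑_{k ≤ m} A_k t^(m-k)) - χ_j ∑_{k < m} A_k t^(m-1-k)`
(`Finset.sum_range_succ'` twice: `m - (k+1) = m - 1 - k`), and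
`∑_{k ≤ m} A_k t^(m-k) = t * BV(m) + A_m` (`Finset.sum_range_succ`, `m - k = (m-1-k) + 1` for
`k < m`).

`BV_prod`: induction on `B` (`Finset.induction_on`, generalizing nothing; use `AS_zero` for
`AS r S B (#S + #B) = 0`). The product is the image of the integers.

`bv_none`: `AS r ∅ B (#B + s) = (q-1)^(#B) q^s`: induction on `B` with `AS_empty` and `AS_insert`
(the empty product is `1`): `(q-1)^(#B) (q^(s+1) - q^s)`.

`BV_none`: induction on `B`: `BV_insert` with `m = #B`: `(t - 1) V_B + (q-1)^(#B)`, and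
`V_{m+1} = ∑_{i ≤ m} (t-1)^i (q-1)^(m-i) = (t-1) V_m + (q-1)^m` (`Finset.sum_range_succ'`).

`BV_pat`: exchange the sums; `pat_AS` (Pool/Agent/H99/RM/Pat.lean).
-/

set_option autoImplicit false

namespace Pool.Agent.H99.RG

open Polynomial Finset Pool.Agent.H99.RM

variable {K : Type} [Field K] [Fintype K] [DecidableEq K] {ι : Type} [DecidableEq ι]
  {R : Type} [CommRing R]

theorem bv_shift (r : ι → K) (S B : Finset ι) (m : ℕ) (t : R) :
    ∑ k ∈ range (m + 1), ((AS r S B k : ℤ) : R) * t ^ (m - k) =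
      t * BV r S B m t + ((AS r S B m : ℤ) : R) := by
  rw [Finset.sum_range_succ, Nat.sub_self, pow_zero, mul_one]
  congr 1
  unfold BV
  rw [Finset.mul_sum]
  refine Finset.sum_congr rfl fun k hk => ?_
  have hk' := Finset.mem_range.1 hk
  have e : m - k = (m - 1 - k) + 1 := by omega
  rw [e, pow_succ]
  ring

theorem BV_insert (r : ι → K) (hr : Function.Injective r) {S B : Finset ι} {j : ι}
    (hjS : j ∉ S) (hjB : j ∉ B) (m : ℕ) (t : R) :
    BV r S (insert j B) (m + 1) t =
      (t - ((∏ i ∈ S, quadraticChar K (r i - r j) : ℤ) : R)) * BV r S B m t +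
        ((AS r S B m : ℤ) : R) := by
  have h1 := bv_shift r S B m t
  rw [Finset.sum_range_succ'] at h1
  have h2 : ∀ k ∈ range m, ((AS r S (insert j B) (k + 1) : ℤ) : R) * t ^ (m + 1 - 1 - (k + 1)) =
      ((AS r S B (k + 1) : ℤ) : R) * t ^ (m - (k + 1)) -
        ((∏ i ∈ S, quadraticChar K (r i - r j) : ℤ) : R) *
          (((AS r S B k : ℤ) : R) * t ^ (m - 1 - k)) := by
    intro k hk
    have hk' := Finset.mem_range.1 hk
    have e1 : m + 1 - 1 - (k + 1) = m - (k + 1) := by omega
    have e2 : m - 1 - k = m - (k + 1) := by omega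
    rw [AS_insert r hr hjS hjB, e1, e2]
    push_cast
    ring
  have h3 : BV r S (insert j B) (m + 1) t =
      ∑ k ∈ range m, ((AS r S (insert j B) (k + 1) : ℤ) : R) * t ^ (m + 1 - 1 - (k + 1)) +
        ((AS r S (insert j B) 0 : ℤ) : R) * t ^ (m + 1 - 1 - 0) := by
    unfold BV
    rw [Finset.sum_range_succ']
  rw [h3, Finset.sum_congr rfl h2, Finset.sum_sub_distrib, ← Finset.mul_sum]
  have h4 : ∑ k ∈ range m, ((AS r S B k : ℤ) : R) * t ^ (m - 1 - k) = BV r S B m t := rfl
  rw [h4]
  have e3 : m + 1 - 1 - 0 = m - 0 := by omega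
  rw [AS_at_zero, e3]
  rw [AS_at_zero] at h1
  linear_combination h1

theorem BV_prod (hK : ringChar K ≠ 2) (r : ι → K) (hr : Function.Injective r) {S B : Finset ι}
    (hS : S.Nonempty) (hd : Disjoint S B) (t : R) :
    BV r S B (S.card + B.card) t =
      BV r S ∅ S.card t * ∏ j ∈ B, (t - ((∏ i ∈ S, quadraticChar K (r i - r j) : ℤ) : R)) := by
  induction B using Finset.induction_on with
  | empty => simp
  | insert j B hjB ih =>
    rw [Finset.disjoint_insert_right] at hd
    have hjS := hd.1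
    rw [Finset.card_insert_of_notMem hjB, ← add_assoc, BV_insert r hr hjS hjB, ih hd.2,
      Finset.prod_insert hjB, AS_zero hK r hr hS hd.2 le_rfl, Int.cast_zero, add_zero]
    ring

theorem bv_none (r : ι → K) (hr : Function.Injective r) (B : Finset ι) (s : ℕ) :
    AS r ∅ B (B.card + s) =
      ((Fintype.card K : ℤ) - 1) ^ B.card * (Fintype.card K : ℤ) ^ s := by
  induction B using Finset.induction_on generalizing s with
  | empty =>
    rw [AS_empty, Finset.card_empty, pow_zero, one_mul, zero_add]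
  | insert j B hjB ih =>
    have e : (insert j B).card + s = (B.card + s) + 1 := by
      rw [Finset.card_insert_of_notMem hjB]; ring
    rw [e, AS_insert r hr (Finset.notMem_empty j) hjB, Finset.prod_empty, one_mul, ih s, add_assoc,
      ih (s + 1), Finset.card_insert_of_notMem hjB]
    ring

theorem BV_none (r : ι → K) (hr : Function.Injective r) (B : Finset ι) (t : R) :
    BV r ∅ B B.card t =
      ∑ i ∈ range B.card, (t - 1) ^ i * ((((Fintype.card K : ℤ) - 1 : ℤ) : R)) ^ (B.card - 1 - i) := by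
  induction B using Finset.induction_on with
  | empty => simp [BV]
  | insert j B hjB ih =>
    have h0 := bv_none r hr B 0
    rw [add_zero, pow_zero, mul_one] at h0
    rw [Finset.card_insert_of_notMem hjB, BV_insert r hr (Finset.notMem_empty j) hjB, ih,
      Finset.prod_empty, Int.cast_one, h0, Finset.sum_range_succ', Finset.mul_sum, pow_zero,
      one_mul]
    have e3 : B.card + 1 - 1 - 0 = B.card := by omega
    rw [e3, Int.cast_pow]
    congr 1
    refine Finset.sum_congr rfl fun k hk => ?_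
    have e4 : B.card + 1 - 1 - (k + 1) = B.card - 1 - k := by omega
    rw [e4]
    ring

theorem BV_pat (r : ι → K) (S : Finset ι) (m : ℕ) (t : R) :
    (2 : R) ^ S.card ∣ ∑ T ∈ S.powerset, BV r T (S \ T) m t := by
  unfold BV
  rw [Finset.sum_comm]
  refine Finset.dvd_sum fun k _ => ?_
  rw [← Finset.sum_mul]
  refine Dvd.dvd.mul_right ?_ _
  obtain ⟨c, hc⟩ := pat_AS r S k
  refine ⟨(c : R), ?_⟩
  have h := congrArg (fun z : ℤ => (z : R)) hc
  push_cast at h
  exact h

end Pool.Agent.H99.RG
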