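import Pool.Agent.H99.RG.Tr2
import Pool.Agent.H99.RM.Nid
import Pool.Agent.H99.RM.Nim
import Pool.Agent.H48.HC.NEP

/-!
# Project MP_17d720_RG, module Cmf: middle coefficient and Cartier-Manin determinant

Auxiliary lemmas: cmf_. Proof. `H = cmf g f`. `P` monic of natDegree `2g` with complex roots
`α_1..α_{2g}` (`roots_fin` of NEP.lean), `s_m = ∑ α_i^m`. `A k := P.coeff (2g - k)` for `k ≤ 2g`; in
`ℂ`, `∏ (1 - α_i X)` has coefficient `A k` at `X^k` (`reflect_prod` of NEP.lean, `coeff_reflect`,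
`revAt_le`), so `nid_prod` gives `k A_k = -∑_{m=1}^k s_m A_{k-m}` in `ℂ` for `k ≤ 2g`, `A_0 = 1`. By
`IsFrobPoly`, `s_m = p^m + 1 - curvePoints p g f m` is an integer; so the recursion holds in `ℤ` and in
`ZMod p`, where `s_m = 1 - curvePoints p g f m = tr(H^m)` (`tr2_main`). `nid_matrix`:
`A_g = (-1)^g det H`.
-/

set_option autoImplicit false

namespace Pool.Agent.H99.RG

open Finset Polynomial Pool.Agent.H99.RM Pool.Agent.H48.HC

theorem cmf_main (p : ℕ) [Fact p.Prime] (hp : p ≠ 2) {g : ℕ} (hg : g < p)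
    (f : (ZMod p)[X]) (hf : f.natDegree ≤ 2 * g + 2) {P : ℤ[X]} (hP : IsFrobPoly p g f P) :
    ((P.coeff g : ℤ) : ZMod p) = (-1) ^ g * (cmf g f).det := by
  obtain ⟨hmon, hdeg, hpt⟩ := hP
  obtain ⟨α, hα1, hα2, -⟩ := roots_fin hmon hdeg
  have hcoef : ∀ k, k ≤ 2 * g →
      (∏ i, (1 - C (α i) * X) : ℂ[X]).coeff k = ((P.coeff (2 * g - k) : ℤ) : ℂ) := by
    intro k hk
    have h1 : reflect (2 * g) (∏ i, (1 - C (α i) * X) : ℂ[X]) = P.map (Int.castRingHom ℂ) := by
      rw [reflect_prod, hα1]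
    have h2 : (P.map (Int.castRingHom ℂ)).coeff (2 * g - k) =
        (∏ i, (1 - C (α i) * X) : ℂ[X]).coeff k := by
      rw [← h1, coeff_reflect, revAt_le (Nat.sub_le _ _), Nat.sub_sub_self hk]
    rw [← h2, coeff_map]
    rfl
  obtain ⟨s, hsdef⟩ : ∃ s : ℕ → ℤ, ∀ m, s m = (p : ℤ) ^ m + 1 - (curvePoints p g f m : ℤ) :=
    ⟨_, fun _ => rfl⟩
  have hs : ∀ m, 1 ≤ m → ((s m : ℤ) : ℂ) = ∑ i, α i ^ m := by
    intro m hm
    have h1 := hpt m hm
    rw [hα2] at h1
    rw [hsdef]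
    push_cast
    rw [h1]
    ring
  have hrec : ∀ k, k ≤ 2 * g → (k : ℤ) * P.coeff (2 * g - k) =
      -∑ m ∈ Icc 1 k, s m * P.coeff (2 * g - (k - m)) := by
    intro k hk
    have h1 := nid_prod α k
    rw [hcoef k hk] at h1
    apply Int.cast_injective (α := ℂ)
    push_cast
    rw [h1]
    congr 1
    refine Finset.sum_congr rfl fun m hm => ?_
    rw [mem_Icc] at hm
    rw [hs m hm.1, hcoef (k - m) (by omega)]
  have h3 := nid_matrix p hg (cmf g f) (fun k => ((P.coeff (2 * g - k) : ℤ) : ZMod p)) ?_ ?_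
  · have e : 2 * g - g = g := by omega
    simpa only [e] using h3
  · show ((P.coeff (2 * g - 0) : ℤ) : ZMod p) = 1
    rw [Nat.sub_zero, ← hdeg]
    have : P.coeff P.natDegree = 1 := hmon
    rw [this, Int.cast_one]
  · intro k hk1 hk2
    have h4 := congrArg (fun z : ℤ => (z : ZMod p)) (hrec k (by omega))
    simp only [Int.cast_mul, Int.cast_neg, Int.cast_sum, Int.cast_natCast] at h4
    rw [h4]
    congr 1
    refine Finset.sum_congr rfl fun m hm => ?_
    rw [mem_Icc] at hm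
    congr 1
    rw [hsdef]
    push_cast
    rw [tr2_main p hp hg f hf m hm.1, ZMod.natCast_self, zero_pow (by omega)]
    ring

end Pool.Agent.H99.RG
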