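import Pool.Agent.H99.RG.Def
import Pool.Agent.H99.RM.Chr
import Pool.Agent.H99.RM.Lnk

/-!
# Project MP_17d720_RG, module Cn2: number of points, general leading coefficient

Auxiliary lemmas: prefix cn2_. Proof. `F = GaloisField p n`, `q = p^n` elements, `ringChar F = p ≠ 2`,
`χ = quadraticChar F`, `ε = quadraticChar (ZMod p) c = ± 1`, `c' = algebraMap c ≠ 0`.
`χ c' = quadraticChar (ZMod p) (norm c') = quadraticChar (c^n) = ε^n` (`chr_norm` of
Pool/Agent/H99/RM/Chr.lean, `Algebra.norm_algebraMap`, `GaloisField.finrank`).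
`aeval x (C c * ∏ (X - C (r i))) = c' * ∏ (x - r' i)`; `lnk_count` (Lnk.lean) with
`g x = c' * ∏ (x - r' i)`: the number of affine points is `q + ε^n * NG p n r`. The coefficient of
`X^(2g+2)` of `C c * ∏_{i : Fin N} (X - C (r i))` (monic product of natDegree `N`) is `c` if `N = 2g+2`
and `0` if `N = 2g+1`; the number of `w` with `w^2 = c'` is `1 + χ c' = 1 + ε^n`
(`quadraticChar_card_sqrts`), and with `w^2 = 0` it is `1`. `ev (2g+2) = 1`, `ev (2g+1) = 0`.
-/

set_option autoImplicit false

namespace Pool.Agent.H99.RG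

open Polynomial Finset Pool.Agent.H99.RM Pool.Agent.H48.HC

variable {p : ℕ} [Fact p.Prime] {N : ℕ}

theorem cn2_sqrts {F : Type} [Field F] [Fintype F] [DecidableEq F] (hF : ringChar F ≠ 2) (v : F) :
    (Nat.card {w : F // w ^ 2 = v} : ℤ) = 1 + quadraticChar F v := by
  have h3 := quadraticChar_card_sqrts hF v
  rw [Nat.card_eq_fintype_card, add_comm, ← h3, Fintype.card_subtype, Set.toFinset_ofPred]

theorem curvePoints_gen (hp2 : p ≠ 2) {g : ℕ} (hN : N = 2 * g + 1 ∨ N = 2 * g + 2) {c : ZMod p}
    (hc : c ≠ 0) (r : Fin N → ZMod p) {n : ℕ} (hn : 1 ≤ n) :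
    (curvePoints p g (C c * ∏ i, (X - C (r i))) n : ℤ) =
      (p : ℤ) ^ n + 1 + (quadraticChar (ZMod p) c) ^ n * (NG p n r + (ev N : ℤ)) := by
  classical
  let _inst := Fintype.ofFinite (GaloisField p n)
  have hch : ringChar (GaloisField p n) = p := ringChar.eq (GaloisField p n) p
  have hch2 : ringChar (GaloisField p n) ≠ 2 := by rw [hch]; exact hp2
  have hcard : Fintype.card (GaloisField p n) = p ^ n := by
    rw [← Nat.card_eq_fintype_card]
    exact GaloisField.card p n (by omega)
  have hcp : ringChar (ZMod p) ≠ 2 := by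
    rw [ZMod.ringChar_zmod_n]; exact hp2
  have hchi : quadraticChar (GaloisField p n) (algebraMap (ZMod p) (GaloisField p n) c) =
      (quadraticChar (ZMod p) c) ^ n := by
    rw [chr_norm (K := ZMod p) (F := GaloisField p n) hcp, Algebra.norm_algebraMap,
      GaloisField.finrank p (by omega : n ≠ 0), map_pow]
  -- affine points
  have haff : (Nat.card {P : GaloisField p n × GaloisField p n //
      P.2 ^ 2 = aeval P.1 (C c * ∏ i, (X - C (r i)))} : ℤ) =
      (p : ℤ) ^ n + (quadraticChar (ZMod p) c) ^ n * NG p n r := by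
    rw [lnk_count hch2 (fun x => aeval x (C c * ∏ i, (X - C (r i)))), hcard, Nat.cast_pow]
    congr 1
    unfold NG NS
    rw [Finset.mul_sum]
    refine Finset.sum_congr rfl fun x _ => ?_
    have h1 : aeval x (C c * ∏ i, (X - C (r i))) =
        algebraMap (ZMod p) (GaloisField p n) c *
          ∏ i, (x - algebraMap (ZMod p) (GaloisField p n) (r i)) := by
      rw [map_mul, aeval_C, map_prod]
      simp only [map_sub, aeval_X, aeval_C]
    rw [h1, map_mul, hchi]
  -- points at infinity
  have hmon : (∏ i, (X - C (r i))).Monic := monic_prod_of_monic _ _ (fun i _ => monic_X_sub_C _)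
  have hdeg : (∏ i, (X - C (r i))).natDegree = N := by
    rw [natDegree_prod_of_monic _ _ (fun i _ => monic_X_sub_C _)]
    simp
  have hinf : (Nat.card {w : GaloisField p n // w ^ 2 =
      algebraMap (ZMod p) (GaloisField p n) ((C c * ∏ i, (X - C (r i))).coeff (2 * g + 2))} : ℤ) =
      1 + (quadraticChar (ZMod p) c) ^ n * (ev N : ℤ) := by
    rw [cn2_sqrts hch2, coeff_C_mul]
    rcases hN with h | h
    · have h1 : (∏ i, (X - C (r i))).coeff (2 * g + 2) = 0 := by
        apply coeff_eq_zero_of_natDegree_lt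
        rw [hdeg]; omega
      rw [h1, mul_zero, map_zero, MulCharClass.map_nonunit _ (by simp)]
      have h2 : ev N = 0 := by
        unfold ev
        rw [if_neg]
        rintro ⟨k, hk⟩
        omega
      rw [h2]; simp
    · have h1 : (∏ i, (X - C (r i))).coeff (2 * g + 2) = 1 := by
        have h3 := hmon.coeff_natDegree
        have h4 : (∏ i, (X - C (r i))).natDegree = 2 * g + 2 := by rw [hdeg, h]
        rw [h4] at h3
        exact h3
      rw [h1, mul_one, hchi]
      have h2 : ev N = 1 := by
        unfold ev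
        rw [if_pos]
        exact ⟨g + 1, by omega⟩
      rw [h2]; simp
  unfold curvePoints
  rw [Nat.cast_add, haff, hinf]
  ring

end Pool.Agent.H99.RG
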