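import Pool.Agent.H99.RM.Defs
import Pool.Agent.H48.HC.Def
import Pool.Agent.H48.HC.D2

/-! # Project MP_17d720_RG: definitions (general symbol pattern, Cartier-Manin matrix) -/

set_option autoImplicit false

namespace Pool.Agent.H99.RG

open Polynomial Finset Pool.Agent.H99.RM

/-- `∑_{k < m} AS r S B k * t ^ (m - 1 - k)`. -/
noncomputable def BV {K : Type} [Field K] [Fintype K] [DecidableEq K] {ι : Type} [DecidableEq ι]
    {R : Type} [CommRing R] (r : ι → K) (S B : Finset ι) (m : ℕ) (t : R) : R :=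
  ∑ k ∈ range m, ((AS r S B k : ℤ) : R) * t ^ (m - 1 - k)

/-- The Cartier-Manin matrix of `y ^ 2 = f(x)` of genus `g`. -/
noncomputable def cmf {p : ℕ} (g : ℕ) (f : (ZMod p)[X]) : Matrix (Fin g) (Fin g) (ZMod p) :=
  Matrix.of fun i j => (f ^ ((p - 1) / 2)).coeff (p * ((i : ℕ) + 1) - ((j : ℕ) + 1))

end Pool.Agent.H99.RG
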