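import Pool.Agent.H99.RG.Def
import Pool.Agent.H7.OR.Defs

/-! # MP_17d720_ag: hyperelliptic curves with real multiplication, definitions of the final theorem -/

set_option autoImplicit false

open Polynomial NumberField IsDedekindDomain Pool.Agent.H48.HC

namespace Pool.Agent.H99.RG

/-- The hyperelliptic curve `y² = f(x)` of genus `g`, `f ∈ 𝓞 K [x]`, has good ordinary reduction at
the place `v` with residue field `F_p` (`π : 𝓞 K → F_p` is the reduction map): `p` is odd, `f mod v`
is separable of degree `2g + 1` or `2g + 2`, its Cartier-Manin matrix is invertible, and `p` does not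
divide the middle coefficient of the characteristic polynomial of Frobenius. -/
def GoodOrdinary {K : Type} [Field K] [NumberField K] (g : ℕ) (f : (𝓞 K)[X])
    (v : HeightOneSpectrum (𝓞 K)) : Prop :=
  ∃ (p : ℕ) (_ : Fact p.Prime) (π : 𝓞 K →+* ZMod p), RingHom.ker π = v.asIdeal ∧ p ≠ 2 ∧
    (f.map π).Separable ∧ ((f.map π).natDegree = 2 * g + 1 ∨ (f.map π).natDegree = 2 * g + 2) ∧
    (cmf g (f.map π)).det ≠ 0 ∧ ∃ P : ℤ[X], IsFrobPoly p g (f.map π) P ∧ ¬ ((p : ℤ) ∣ P.coeff g)

/-- Real multiplication in terms of Frobenius: for all large primes `p` and all reduction maps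
`π : 𝓞 K → F_p` the characteristic polynomial of Frobenius of the reduced curve is the product of the
norms from `F j` to `ℚ` of polynomials `L j` over the integers of `F j`, where
`L j = T⁴ + a T³ + b T² + p a T + p²` for `j ∈ R` and `L j = T² + a T + p` for `j ∉ R`. -/
def RealMultiplication {K : Type} [Field K] [NumberField K] (g : ℕ) (f : (𝓞 K)[X])
    {ι : Type} [Fintype ι] (F : ι → Type) [∀ j, Field (F j)] [∀ j, NumberField (F j)]
    (R : Set ι) : Prop :=
  ∃ B : ℕ, ∀ (p : ℕ) [Fact p.Prime] (π : 𝓞 K →+* ZMod p), B ≤ p →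
    ∃ (P : ℤ[X]) (L : ∀ j, (𝓞 (F j))[X]), IsFrobPoly p g (f.map π) P ∧
      (∀ j, (j ∈ R → RankFour p (L j)) ∧ (j ∉ R → RankTwo p (L j))) ∧
      P.map (Int.castRingHom ℂ) =
        ∏ j, ∏ τ : F j →+* ℂ, (L j).map (τ.comp (algebraMap (𝓞 (F j)) (F j)))

/-- For one place of `K` with residue field `F_p`, `p ≡ 1 mod 4`, `p` a prime element in the integers
of every `F j`, the polynomial `f mod v` has `deg f` different roots `r i` in `F_p`, and either all
differences `r i - r j` are squares in `F_p`, or, for the characteristic polynomial `P` of Frobenius of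
the reduced curve, `P(1 + 2X) / 4^g` modulo `2` is not divisible by
`(X² + X + (p-1)/4) ^ (2 [F j : ℚ])` for any `j ∈ R`. -/
def SeedPrime {K : Type} [Field K] [NumberField K] (g : ℕ) (f : (𝓞 K)[X])
    {ι : Type} (F : ι → Type) [∀ j, Field (F j)] [∀ j, NumberField (F j)] (R : Set ι) : Prop :=
  ∃ (p : ℕ) (_ : Fact p.Prime) (π : 𝓞 K →+* ZMod p) (r : Fin f.natDegree → ZMod p),
    p % 4 = 1 ∧ (∀ j, Prime ((p : ℕ) : 𝓞 (F j))) ∧ Function.Injective r ∧
    π f.leadingCoeff ≠ 0 ∧ f.map π = C (π f.leadingCoeff) * ∏ i, (X - C (r i)) ∧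
    ((∀ i j, IsSquare (r i - r j)) ∨ ∃ P G : ℤ[X],
      IsFrobPoly p g (f.map π) P ∧ P.comp (1 + 2 * X) = C ((4 : ℤ) ^ g) * G ∧
      ∀ j ∈ R, ¬ (X ^ 2 + X + C (((p - 1) / 4 : ℕ) : ZMod 2)) ^ (2 * Module.finrank ℚ (F j)) ∣
        G.map (Int.castRingHom (ZMod 2)))

end Pool.Agent.H99.RG
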