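import Pool.Agent.H99.RG.Ptn
import Pool.Agent.H99.RG.Ab2

/-!
# Project MP_17d720_RG, module Ptg: the pointwise theorem, general pattern
-/

set_option autoImplicit false

open Polynomial NumberField Pool.Agent.H99.RM Pool.Agent.H48.HC

namespace Pool.Agent.H99.RG

/-- Pointwise theorem over `F_p`, `p ≡ 1 mod 4`. -/
theorem ptg_main {p : ℕ} [Fact p.Prime] (h4 : p % 4 = 1) {g N : ℕ}
    (hN : N = 2 * g + 1 ∨ N = 2 * g + 2)
    (c : ZMod p) (hc : c ≠ 0) (r : Fin N → ZMod p) (hr : Function.Injective r) {P G : ℤ[X]}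
    (hP : IsFrobPoly p g (C c * ∏ i, (X - C (r i))) P)
    (hG : P.comp (1 + 2 * X) = C ((4 : ℤ) ^ g) * G)
    {ι : Type} [Fintype ι] (F : ι → Type) [∀ j, Field (F j)] [∀ j, NumberField (F j)]
    [∀ j, IsTotallyReal (F j)]
    (hprime : ∀ j, Prime ((p : ℕ) : 𝓞 (F j))) (L : ∀ j, (𝓞 (F j))[X])
    (hL : ∀ j, RankTwo p (L j) ∨ RankFour p (L j))
    (hfac : P.map (Int.castRingHom ℂ) =
      ∏ j, ∏ σ : F j →+* ℂ, (L j).map (σ.comp (algebraMap (𝓞 (F j)) (F j))))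
    (hnot : ∀ j, RankFour p (L j) →
      ¬ (X ^ 2 + X + C (((p - 1) / 4 : ℕ) : ZMod 2)) ^ (2 * Module.finrank ℚ (F j)) ∣
        G.map (Int.castRingHom (ZMod 2))) :
    ¬ (p : ℤ) ∣ P.coeff g := by
  intro hdvd
  have hp : p.Prime := Fact.out
  obtain ⟨j, hj4, hj⟩ := ab2_exists hp h4 hP.1 hP.2.1 (frg_main h4 hN hc r hr hP).2 hG F hprime L hL
    hfac hdvd
  apply hnot j hj4
  have h1 := Polynomial.map_dvd (Int.castRingHom (ZMod 2)) (ab2_div h4 hG F L hfac j hj)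
  have h2 : ((X ^ 2 + X - C (((p - 1) / 4 : ℕ) : ℤ)) ^ (2 * Module.finrank ℚ (F j))).map
      (Int.castRingHom (ZMod 2)) =
      (X ^ 2 + X + C (((p - 1) / 4 : ℕ) : ZMod 2)) ^ (2 * Module.finrank ℚ (F j)) := by
    rw [Polynomial.map_pow]
    congr 1
    simp only [Polynomial.map_sub, Polynomial.map_add, Polynomial.map_pow, map_X, map_C]
    have h3 : (Int.castRingHom (ZMod 2)) (((p - 1) / 4 : ℕ) : ℤ) = (((p - 1) / 4 : ℕ) : ZMod 2) := by
      rw [eq_intCast]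
      exact Int.cast_natCast _
    rw [h3, sub_eq_add_neg, ← C_neg]
    congr 2
    exact ZModModule.neg_eq_self _
  rw [h2] at h1
  exact h1

end Pool.Agent.H99.RG
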