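import Pool.Agent.H99.RG.FDef
import Pool.Agent.H99.RG.Ptg
import Pool.Agent.H99.RG.Cmf
import Pool.Agent.H7.OR.Seed

/-! # Project MP_17d720_RG, module Fin: the final theorem -/

set_option autoImplicit false

open Polynomial NumberField IsDedekindDomain Pool.Agent.H7.OR Pool.Agent.H48.HC

namespace Pool.Agent.H99.RG

theorem fin_ranks {A : Type*} [CommRing A] [Nontrivial A] (p : ℕ) (L : A[X]) (h2 : RankTwo p L)
    (h4 : RankFour p L) : False := by
  obtain ⟨a, ha⟩ := h2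
  obtain ⟨b, c, hbc⟩ := h4
  have h1 : L.natDegree = 2 := by rw [ha]; compute_degree!
  have h2 : L.natDegree = 4 := by rw [hbc]; compute_degree!
  omega

theorem fin_sep {p : ℕ} [Fact p.Prime] {N : ℕ} (c : ZMod p) (hc : c ≠ 0) (r : Fin N → ZMod p)
    (hr : Function.Injective r) : (C c * ∏ i, (X - C (r i))).Separable := by
  have h1 : (∏ i, (X - C (r i))).Separable := separable_prod_X_sub_C_iff.2 hr
  exact h1.unit_mul (isUnit_C.2 (isUnit_iff_ne_zero.2 hc))

theorem fin_neg_one (p : ℕ) [Fact p.Prime] :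
    quadraticChar (ZMod p) (-1) = 1 → p ≠ 2 → p % 4 = 1 := by
  intro h1 hp2
  have hodd : p % 2 = 1 := by
    rcases (Fact.out : p.Prime).eq_two_or_odd with h | h
    · exact absurd h hp2
    · exact h
  have hne1 : (-1 : ZMod p) ≠ 0 := neg_ne_zero.2 one_ne_zero
  rw [quadraticChar_one_iff_isSquare hne1] at h1
  have h3 := ZMod.exists_sq_eq_neg_one_iff.1 h1
  omega

theorem fin_two (p : ℕ) [Fact p.Prime] (hp2 : p ≠ 2) :
    quadraticChar (ZMod p) 2 = 1 ↔ (p % 8 = 1 ∨ p % 8 = 7) := by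
  have hne2 : (2 : ZMod p) ≠ 0 := by
    intro h0
    have h3 : ((2 : ℕ) : ZMod p) = 0 := by exact_mod_cast h0
    rw [ZMod.natCast_eq_zero_iff] at h3
    exact hp2 ((Nat.prime_dvd_prime_iff_eq Fact.out Nat.prime_two).1 h3)
  rw [quadraticChar_one_iff_isSquare hne2]
  exact ZMod.exists_sq_eq_two_iff hp2

theorem fin_mod8 (p q : ℕ) [Fact p.Prime] [Fact q.Prime] (hp : p % 4 = 1) (hq : q % 4 = 1)
    (h : quadraticChar (ZMod p) 2 = quadraticChar (ZMod q) 2) :
    (((p - 1) / 4 : ℕ) : ZMod 2) = (((q - 1) / 4 : ℕ) : ZMod 2) := by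
  have hp2 : p ≠ 2 := by omega
  have hq2 : q ≠ 2 := by omega
  have h1 := fin_two p hp2
  have h2 := fin_two q hq2
  rw [h] at h1
  have h3 : (p % 8 = 1 ∨ p % 8 = 7) ↔ (q % 8 = 1 ∨ q % 8 = 7) := h1.symm.trans h2
  rw [ZMod.natCast_eq_natCast_iff]
  show (p - 1) / 4 % 2 = (q - 1) / 4 % 2
  by_cases h4 : q % 8 = 1
  · have h5 := h3.2 (Or.inl h4)
    omega
  · have h5 : ¬ (p % 8 = 1) := fun h6 => by
      have := h3.1 (Or.inl h6)
      omega
    omega

theorem fin_not (c : ZMod 2) (d g : ℕ) (hd : 0 < d) :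
    ¬ (X ^ 2 + X + C c : (ZMod 2)[X]) ^ (2 * d) ∣ X ^ (2 * g) := by
  intro h
  have h1 : (X ^ 2 + X + C c : (ZMod 2)[X]) ∣ X ^ (2 * g) :=
    (dvd_pow_self _ (by omega)).trans h
  have hall : ∀ x : ZMod 2, x = 0 ∨ x = 1 := by decide
  have hc := hall c
  rcases hc with rfl | rfl
  · obtain ⟨q, hq⟩ := h1
    have h2 := congrArg (Polynomial.eval 1) hq
    have h3 : (1 : ZMod 2) + 1 = 0 := by decide
    simp [h3] at h2
  · have hcop : IsCoprime (X ^ 2 + X + C 1 : (ZMod 2)[X]) (X ^ (2 * g)) := by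
      apply IsCoprime.pow_right
      refine ⟨1, -(X + 1), ?_⟩
      rw [C_1]
      ring
    have h2 := hcop.isUnit_of_dvd h1
    have h3 : (X ^ 2 + X + C 1 : (ZMod 2)[X]).natDegree = 2 := by compute_degree!
    rw [natDegree_eq_zero_of_isUnit h2] at h3
    omega

theorem fin_not' (c : ZMod 2) (d g : ℕ) (hd : 0 < d) :
    ¬ (X ^ 2 + X + C c : (ZMod 2)[X]) ^ (2 * d) ∣ (X + 1) ^ (2 * g) := by
  intro h
  have h1 : (X ^ 2 + X + C c : (ZMod 2)[X]) ∣ (X + 1) ^ (2 * g) :=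
    (dvd_pow_self _ (by omega)).trans h
  have hall : ∀ x : ZMod 2, x = 0 ∨ x = 1 := by decide
  have hc := hall c
  rcases hc with rfl | rfl
  · obtain ⟨q, hq⟩ := h1
    have h2 := congrArg (Polynomial.eval 0) hq
    simp at h2
  · have hcop : IsCoprime (X ^ 2 + X + C 1 : (ZMod 2)[X]) ((X + 1) ^ (2 * g)) := by
      apply IsCoprime.pow_right
      refine ⟨1, -X, ?_⟩
      rw [C_1]
      ring
    have h2 := hcop.isUnit_of_dvd h1
    have h3 : (X ^ 2 + X + C 1 : (ZMod 2)[X]).natDegree = 2 := by compute_degree!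
    rw [natDegree_eq_zero_of_isUnit h2] at h3
    omega

/-- For all symbols equal to `1` and any leading coefficient. -/
theorem fin_sq {p : ℕ} [Fact p.Prime] (hp4 : p % 4 = 1) {g N : ℕ}
    (hN : N = 2 * g + 1 ∨ N = 2 * g + 2) {c : ZMod p}
    (hc : c ≠ 0) (r : Fin N → ZMod p)
    (hr : ∀ i j, i ≠ j → quadraticChar (ZMod p) (r i - r j) = 1) {P : ℤ[X]}
    (hP : IsFrobPoly p g (C c * ∏ i, (X - C (r i))) P)
    {G : ℤ[X]} (hG : P.comp (1 + 2 * X) = C ((4 : ℤ) ^ g) * G) :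
    G.map (Int.castRingHom (ZMod 2)) = X ^ (2 * g) ∨
      G.map (Int.castRingHom (ZMod 2)) = (X + 1) ^ (2 * g) := by
  have hr' : Function.Injective r := by
    intro i j hij
    by_contra hne
    have h := hr i j hne
    rw [hij, sub_self, quadraticChar_zero] at h
    exact zero_ne_one h
  have h1 := ptn_key2 hp4 hN hc r hr' hP hG
  have h3 := bet_sq (ptn_four hp4) r hr' hr Finset.univ (ptn_univ hN)
  have h5 : N - 1 = 2 * g + ev N := by
    have := ptn_N hN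
    omega
  rw [Finset.card_univ, Fintype.card_fin, ← h1, h5] at h3
  have h4 : (2 : ℤ[X]) ^ N = 2 ^ (2 * g + ev N) * 2 ^ 1 := by
    rw [← pow_add, ← ptn_N hN]
  set τ := ptn_tau (quadraticChar (ZMod p) c) with hτ
  have h6 : (2 : ℤ[X]) ^ (2 * g + ev N) * (X ^ (ev N) * G.comp τ) - (2 * X) ^ (2 * g + ev N) =
      2 ^ (2 * g + ev N) * (X ^ (ev N) * (G.comp τ - X ^ (2 * g))) := by
    rw [mul_pow]
    ring
  have h20 : (2 : ℤ[X]) ≠ 0 := two_ne_zero
  rw [h4, h6] at h3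
  have h7 := (mul_dvd_mul_iff_left (pow_ne_zero _ h20)).1 h3
  have h8 := ptn_cancel _ _ _ h7
  rw [pow_one] at h8
  obtain ⟨H, hH⟩ := h8
  have h9 : G - τ ^ (2 * g) = 2 * H.comp τ := by
    have h10 : (G.comp τ).comp τ = G := by
      rw [comp_assoc, hτ, ptn_tau_tau _ (ptn_eps hc), comp_X]
    calc G - τ ^ (2 * g) = (G.comp τ - X ^ (2 * g)).comp τ := by
          rw [sub_comp, h10, pow_comp, X_comp]
      _ = 2 * H.comp τ := by
          rw [hH, mul_comp, ofNat_comp]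
          rfl
  have h11 := ptn_map ⟨_, h9⟩
  rw [h11, Polynomial.map_pow]
  rcases ptn_eps hc with h12 | h12
  · left
    rw [hτ, h12]
    unfold ptn_tau
    rw [if_pos rfl, Polynomial.map_X]
  · right
    rw [hτ, h12]
    unfold ptn_tau
    rw [if_neg (by norm_num)]
    have h13 : (-1 - X : ℤ[X]) = -(X + 1) := by ring
    rw [h13, Polynomial.map_neg, Polynomial.map_add, Polynomial.map_X, Polynomial.map_one,
      Even.neg_pow (even_two_mul g)]

/-- The common last step. -/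
theorem fin_step {K : Type} [Field K] [NumberField K] {g : ℕ} (f : (𝓞 K)[X])
    (hdeg : f.natDegree = 2 * g + 1 ∨ f.natDegree = 2 * g + 2)
    {ι : Type} [Fintype ι] (F : ι → Type) [∀ j, Field (F j)] [∀ j, NumberField (F j)]
    [∀ j, IsTotallyReal (F j)] (R : Set ι) (v : HeightOneSpectrum (𝓞 K))
    (p : ℕ) [Fact p.Prime] (π : 𝓞 K →+* ZMod p) (hπ : RingHom.ker π = v.asIdeal)
    (r : Fin f.natDegree → ZMod p) (hgp : g < p) (h4 : p % 4 = 1) (hr : Function.Injective r)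
    (hc : π f.leadingCoeff ≠ 0) (hfac : f.map π = C (π f.leadingCoeff) * ∏ i, (X - C (r i)))
    (hprime : ∀ j, (Ideal.span {(p : 𝓞 (F j))}).IsPrime)
    (P : ℤ[X]) (L : ∀ j, (𝓞 (F j))[X]) (hP : IsFrobPoly p g (f.map π) P)
    (hL : ∀ j, (j ∈ R → RankFour p (L j)) ∧ (j ∉ R → RankTwo p (L j)))
    (hprod : P.map (Int.castRingHom ℂ) =
      ∏ j, ∏ τ : F j →+* ℂ, (L j).map (τ.comp (algebraMap (𝓞 (F j)) (F j))))
    (hnot : ∀ G : ℤ[X], P.comp (1 + 2 * X) = C ((4 : ℤ) ^ g) * G → ∀ j ∈ R,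
      ¬ (X ^ 2 + X + C (((p - 1) / 4 : ℕ) : ZMod 2)) ^ (2 * Module.finrank ℚ (F j)) ∣
        G.map (Int.castRingHom (ZMod 2))) :
    GoodOrdinary g f v := by
  have hp : p.Prime := Fact.out
  have hp2 : p ≠ 2 := by omega
  have hprime' : ∀ j, Prime ((p : ℕ) : 𝓞 (F j)) := by
    intro j
    have h0 : (p : 𝓞 (F j)) ≠ 0 := by exact_mod_cast hp.ne_zero
    exact (Ideal.span_singleton_prime h0).mp (hprime j)
  have hdeg' : (f.map π).natDegree = f.natDegree :=
    natDegree_map_of_leadingCoeff_ne_zero _ hc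
  have hP' : IsFrobPoly p g (C (π f.leadingCoeff) * ∏ i, (X - C (r i))) P := by
    rw [← hfac]; exact hP
  obtain ⟨G, hG⟩ := ptn_G h4 hdeg hc r hr hP'
  have hL' : ∀ j, RankTwo p (L j) ∨ RankFour p (L j) := by
    intro j
    by_cases hj : j ∈ R
    · exact Or.inr ((hL j).1 hj)
    · exact Or.inl ((hL j).2 hj)
  have hord : ¬ (p : ℤ) ∣ P.coeff g := by
    refine ptg_main h4 hdeg (π f.leadingCoeff) hc r hr hP' hG F hprime' L hL' hprod ?_
    intro j hj4
    by_cases hj : j ∈ R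
    · exact hnot G hG j hj
    · exact (fin_ranks p (L j) ((hL j).2 hj) hj4).elim
  refine ⟨p, inferInstance, π, hπ, hp2, ?_, ?_, ?_, P, hP, hord⟩
  · rw [hfac]
    exact fin_sep _ hc r hr
  · rw [hdeg']
    exact hdeg
  · intro hdet
    have h1 := cmf_main p hp2 hgp (f.map π) (by rw [hdeg']; omega) hP
    rw [hdet, mul_zero] at h1
    exact hord ((ZMod.intCast_zmod_eq_zero_iff_dvd _ _).1 h1)

/-- The final theorem. -/
theorem fin_main {K : Type} [Field K] [NumberField K] {g : ℕ} (f : (𝓞 K)[X])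
    (hdeg : f.natDegree = 2 * g + 1 ∨ f.natDegree = 2 * g + 2)
    {ι : Type} [Fintype ι] (F : ι → Type) [∀ j, Field (F j)] [∀ j, NumberField (F j)]
    [∀ j, IsTotallyReal (F j)] (R : Set ι) (hRM : RealMultiplication g f F R)
    (h : SeedPrime g f F R) :
    PosDensity {v : HeightOneSpectrum (𝓞 K) | GoodOrdinary g f v} := by
  classical
  obtain ⟨B, hB⟩ := hRM
  obtain ⟨p₀, hp₀, π₀, r₀, h40, hin, hr₀, hc₀, hfac₀, hseed⟩ := h
  have hp02 : p₀ ≠ 2 := by omega
  have hpp : p₀.Prime := Fact.out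
  have hin' : ∀ j, (Ideal.span {(p₀ : 𝓞 (F j))}).IsPrime := by
    intro j
    have h0 : (p₀ : 𝓞 (F j)) ≠ 0 := by exact_mod_cast hpp.ne_zero
    exact (Ideal.span_singleton_prime h0).mpr (hin j)
  have hne2 : (2 : ZMod p₀) ≠ 0 := by
    intro h0
    have h3 : ((2 : ℕ) : ZMod p₀) = 0 := by exact_mod_cast h0
    rw [ZMod.natCast_eq_zero_iff] at h3
    exact hp02 ((Nat.prime_dvd_prime_iff_eq Fact.out Nat.prime_two).1 h3)
  refine base_mono ?_ (spread0 f (fun k : Bool => (if k then -1 else 2 : ℤ)) F p₀ hp02 π₀ r₀ hr₀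
    hc₀ hfac₀ (by intro k; cases k <;> simp [hne2]) hin' (max B g))
  rintro v ⟨p, hp, π, r, hπ, hBp, hp2, hr, hc, hfac, hdiff, hlc, hzz, hprime⟩
  have hBp' : B < p := lt_of_le_of_lt (le_max_left _ _) hBp
  have hgp : g < p := lt_of_le_of_lt (le_max_right _ _) hBp
  obtain ⟨P, Lj, hP, hL, hprod⟩ := hB p π hBp'.le
  have h1 : quadraticChar (ZMod p) (-1) = quadraticChar (ZMod p₀) (-1) := by
    have := hzz true
    simpa using this
  have h2 : quadraticChar (ZMod p) 2 = quadraticChar (ZMod p₀) 2 := by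
    have := hzz false
    simpa using this
  have h3 : quadraticChar (ZMod p₀) (-1) = 1 := by
    have hne1 : (-1 : ZMod p₀) ≠ 0 := neg_ne_zero.2 one_ne_zero
    rw [quadraticChar_one_iff_isSquare hne1]
    exact ZMod.exists_sq_eq_neg_one_iff.2 (by omega)
  have h4 := fin_neg_one p (h1.trans h3) hp2
  refine fin_step f hdeg F R v p π hπ r hgp h4 hr hc hfac hprime P Lj hP hL hprod ?_
  intro G hG j hj
  have hP' : IsFrobPoly p g (C (π f.leadingCoeff) * ∏ i, (X - C (r i))) P := by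
    rw [← hfac]; exact hP
  rcases hseed with hsq | ⟨P₀, G₀, hP₀, hG₀, hn₀⟩
  · have hsym : ∀ i j, i ≠ j → quadraticChar (ZMod p) (r i - r j) = 1 := by
      intro i j hij
      rw [hdiff i j hij, quadraticChar_one_iff_isSquare]
      · exact hsq i j
      · exact fun h0 => hij (hr₀ (sub_eq_zero.1 h0))
    rcases fin_sq h4 hdeg hc r hsym hP' hG with h5 | h5
    · rw [h5]
      exact fin_not _ _ _ Module.finrank_pos
    · rw [h5]
      exact fin_not' _ _ _ Module.finrank_pos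
  · have hP₀' : IsFrobPoly p₀ g (C (π₀ f.leadingCoeff) * ∏ i, (X - C (r₀ i))) P₀ := by
      rw [← hfac₀]; exact hP₀
    rw [ptn_transfer h4 h40 hdeg hc r hr hP' hc₀ r₀ hr₀ hP₀' hlc hdiff hG hG₀,
      fin_mod8 p p₀ h4 h40 h2]
    exact hn₀ j hj

end Pool.Agent.H99.RG
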