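import Pool.Agent.H99.RG.Cn2
import Pool.Agent.H99.RG.Bv
import Pool.Agent.H48.HC.NEP
import Pool.Agent.H48.HC.RHY

/-!
# Project MP_17d720_RG, module Frg: the Frobenius polynomial for a general leading coefficient

Auxiliary lemmas: prefix frg_. Proof. `ε = quadraticChar (ZMod p) c = ± 1` (`c ≠ 0`),
`P' := P.comp (C ε * X)`. `P` is monic of natDegree `2g`, so `P'` is monic (`ε^(2g) = 1`) of natDegree
`2g = 2 * gen N`. The complex roots of `P'` are the `ε α`, `α` a root of `P` (with multiplicity):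
`(P'.map).roots = (P.map).roots.map (ε * ·)` (`frg_roots`; e.g. `P.map = ∏ (X - C α)`,
`P'.map = ∏ (C ε * X - C α) = ∏ C ε * (X - C (ε α))`, `ε^(2g) = 1`; `roots_fin` of NEP.lean may
help).  By `curvePoints_gen` and `IsFrobPoly`:
`p^n + 1 + ε^n (NG p n r + ev N) = p^n + 1 - ∑ α^n`, so `NG p n r = -(ev N + ∑ (ε α)^n)` (multiply by
`ε^n`). Now `eq_Pol` (NEP.lean): `P' = Pol r univ`, `Pol_mul` (PF.lean):
`(X - C 1)^(ev N) * P' = Apoly r univ`, and `Apoly r univ = BV r univ ∅ N X` by definition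
(`univ.card = N`, `C (a : ℤ) = (a : ℤ[X])`, `Polynomial.C_eq_intCast`). `RH` (RHY.lean) gives
`‖ε α‖^2 ≤ p`.
-/

set_option autoImplicit false

namespace Pool.Agent.H99.RG

open Polynomial Finset Pool.Agent.H99.RM Pool.Agent.H48.HC

variable {p : ℕ} [Fact p.Prime] {N : ℕ}

theorem frg_roots {D : ℕ} (f : Fin D → ℂ) :
    (∏ i, (X - C (f i)) : ℂ[X]).roots = Finset.univ.val.map f := by
  have h : (∏ i, (X - C (f i)) : ℂ[X]) =
      ((Finset.univ.val.map f).map fun a => X - C a).prod := by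
    rw [Multiset.map_map]
    rfl
  rw [h, roots_multiset_prod_X_sub_C]

theorem frg_comp {D : ℕ} (ε : ℤ) (hε : ε * ε = 1) {g : ℕ} (hD : D = 2 * g) {P : ℤ[X]}
    (α : Fin D → ℂ) (hα : P.map (Int.castRingHom ℂ) = ∏ i, (X - C (α i))) :
    (P.comp (C ε * X)).map (Int.castRingHom ℂ) = ∏ i, (X - C ((ε : ℂ) * α i)) := by
  have hεc : (ε : ℂ) * (ε : ℂ) = 1 := by exact_mod_cast hε
  rw [Polynomial.map_comp, hα, Polynomial.prod_comp]
  have h1 : ∀ i, (X - C (α i) : ℂ[X]).comp ((C ε * X : ℤ[X]).map (Int.castRingHom ℂ)) =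
      C (ε : ℂ) * (X - C ((ε : ℂ) * α i)) := by
    intro i
    rw [Polynomial.map_mul, map_C, map_X, sub_comp, X_comp, C_comp, eq_intCast, mul_sub,
      ← C_mul, ← mul_assoc, hεc, one_mul]
  have h2 : (ε : ℂ) ^ D = 1 := by
    rw [hD, pow_mul, pow_two, hεc, one_pow]
  rw [Finset.prod_congr rfl fun i _ => h1 i, Finset.prod_mul_distrib, Finset.prod_const,
    Finset.card_univ, Fintype.card_fin, ← C_pow, h2, C_1, one_mul]

theorem frg_main (hp4 : p % 4 = 1) {g : ℕ} (hN : N = 2 * g + 1 ∨ N = 2 * g + 2) {c : ZMod p}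
    (hc : c ≠ 0) (r : Fin N → ZMod p) (hr : Function.Injective r) {P : ℤ[X]}
    (hP : IsFrobPoly p g (C c * ∏ i, (X - C (r i))) P) :
    (X - 1) ^ (ev N) * P.comp (C (quadraticChar (ZMod p) c) * X) =
      BV r univ ∅ N (X : ℤ[X]) ∧
    ∀ α ∈ (P.map (Int.castRingHom ℂ)).roots, ‖α‖ ^ 2 ≤ (p : ℝ) := by
  have hp2 : p ≠ 2 := by
    rintro rfl
    omega
  have hN1 : 1 ≤ N := by omega
  obtain ⟨hmon, hdeg, hpts⟩ := hP
  have hpg := fun n (hn : 1 ≤ n) => curvePoints_gen hp2 hN hc r hn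
  obtain ⟨ε, hε⟩ : ∃ ε : ℤ, ε = quadraticChar (ZMod p) c := ⟨_, rfl⟩
  have hε1 : ε * ε = 1 := by
    rcases quadraticChar_dichotomy hc with h | h
    · rw [hε, h]
      norm_num
    · rw [hε, h]
      norm_num
  rw [← hε] at hpg
  rw [← hε]
  have hε0 : ε ≠ 0 := by
    rintro rfl
    norm_num at hε1
  have hεc : (ε : ℂ) * (ε : ℂ) = 1 := by exact_mod_cast hε1
  obtain ⟨α, hα1, hα2, hα3⟩ := roots_fin hmon hdeg
  have hmap := frg_comp ε hε1 rfl α hα1
  have hnd : (C ε * X : ℤ[X]).natDegree = 1 := natDegree_C_mul_X ε hε0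
  have hdeg' : (P.comp (C ε * X)).natDegree = 2 * gen N := by
    rw [natDegree_comp, hnd, hdeg, mul_one]
    unfold gen
    omega
  have hmon' : (P.comp (C ε * X)).Monic := by
    unfold Polynomial.Monic
    rw [leadingCoeff_comp (by rw [hnd]; exact one_ne_zero), hmon.leadingCoeff, hdeg,
      leadingCoeff_C_mul_X, pow_mul, pow_two, hε1, one_pow, one_mul]
  have hsum : ∀ m : ℕ, 1 ≤ m → ((NG p m r : ℤ) : ℂ) =
      -((ev N : ℂ) + (((P.comp (C ε * X)).map (Int.castRingHom ℂ)).roots.map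
        (fun α => α ^ m)).sum) := by
    intro m hm
    have h1 := hpg m hm
    have h2 := hpts m hm
    rw [hα2] at h2
    have h3 : ((curvePoints p g (C c * ∏ i, (X - C (r i))) m : ℤ) : ℂ) =
        (((p : ℤ) ^ m + 1 + ε ^ m * (NG p m r + (ev N : ℤ)) : ℤ) : ℂ) := by rw [h1]
    push_cast at h3
    rw [h2] at h3
    rw [hmap, frg_roots, Multiset.map_map]
    have h4 : (Multiset.map ((fun α : ℂ => α ^ m) ∘ fun i => (ε : ℂ) * α i)
        Finset.univ.val).sum = (ε : ℂ) ^ m * ∑ i, α i ^ m := by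
      rw [Finset.mul_sum]
      show ∑ i, ((ε : ℂ) * α i) ^ m = _
      exact Finset.sum_congr rfl fun i _ => mul_pow _ _ _
    rw [h4]
    have h5 : (ε : ℂ) ^ m * (ε : ℂ) ^ m = 1 := by
      rw [← mul_pow, hεc, one_pow]
    linear_combination (-(((NG p m r : ℤ) : ℂ) + (ev N : ℂ))) * h5 - (ε : ℂ) ^ m * h3
  have hPol := eq_Pol hp4 hN1 hr hmon' hdeg' hsum
  constructor
  · have hne : (Finset.univ : Finset (Fin N)).Nonempty := ⟨⟨0, by omega⟩, Finset.mem_univ _⟩
    have hmul := Pol_mul hp2 hr hne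
    rw [← hPol, Finset.card_univ, Fintype.card_fin, C_1] at hmul
    rw [hmul]
    unfold Apoly BV
    rw [Finset.card_univ, Fintype.card_fin]
    refine Finset.sum_congr rfl fun k _ => ?_
    rw [eq_intCast]
  · intro a ha
    obtain ⟨i, rfl⟩ := (hα3 a).1 ha
    have hRH := RH hp2 hN1 hr hmon' hsum ((ε : ℂ) * α i) (by
      rw [hmap, frg_roots, Multiset.mem_map]
      exact ⟨i, Finset.mem_univ_val i, rfl⟩)
    have hn : ‖(ε : ℂ)‖ = 1 := by
      have h1 := congrArg norm hεc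
      rw [norm_mul, norm_one] at h1
      nlinarith [norm_nonneg (ε : ℂ)]
    rw [norm_mul, hn, one_mul] at hRH
    exact hRH

end Pool.Agent.H99.RG
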