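import Pool.Agent.H99.RG.Frg
import Pool.Agent.H99.RG.Bet

/-!
# Project MP_17d720_RG, module Ptn: `P(1 + 2X) = 4^g G(X)` and `G` modulo `2`

Auxiliary lemmas: prefix ptn_. Let `ε = quadraticChar (ZMod p) c = ± 1`, `P' = P.comp (C ε * X)`,
`t = 1 + 2X`, `δ = ev N`, `N - 1 = 2g + δ`.

(1) Substitute `t` for `X` in `frg_main` (apply `Polynomial.eval₂`/`comp t`; `BV r univ ∅ N X` goes to
`BV r univ ∅ N t` as `comp` is a ring homomorphism fixing `ℤ`):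
`(2X)^δ * P'.comp t = BV r univ ∅ N t`, `univ.card = N`. By `bet_one` `2^(N-1)` divides it, so (cancel
`2^δ`) `2^(2g) ∣ X^δ * P'.comp t`, and `2^(2g) ∣ P'.comp t` (compare coefficients:
`Polynomial.C_dvd_iff_dvd_coeff`, `coeff_X_pow_mul`). Write `P'.comp t = 2^(2g) G'`.
(2) `ε = 1`: `P' = P`, `G = G'`. `ε = -1`: `P = P'.comp (-X)`, `P.comp t = P'.comp (-1 - 2X) =
(P'.comp t).comp (-1 - X) = 2^(2g) (G'.comp (-1 - X))`, `G = G'.comp (-1 - X)`.
(3) `ptn_transfer`: `N` and the symbols are the same, `4 ∣ p - 1`, `4 ∣ p' - 1`: `bet_transfer`: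
`2^N ∣ (2X)^δ 2^(2g) (G'_1 - G'_2) = 2^(N-1) X^δ (G'_1 - G'_2)`, so `2 ∣ X^δ (G'_1 - G'_2)` and
`2 ∣ G'_1 - G'_2` (coefficients); then also for the `G` (substitute `-1 - X`). Divisibility by `2` of
the coefficients gives equality of the maps to `(ZMod 2)[X]`. The `G` are unique (`ℤ[X]` has no zero
divisors), so the statement holds for any `G` with the given property.
(4) `ptn_sq`: `ε = 1` and `bet_sq`: `2^N ∣ 2^(N-1) X^δ G - (2X)^(N-1)`, so `2 ∣ X^δ (G - X^(2g))`.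
-/

set_option autoImplicit false

namespace Pool.Agent.H99.RG

open Polynomial Finset Pool.Agent.H99.RM Pool.Agent.H48.HC

/-- The substitution. -/
noncomputable def ptn_tau (ε : ℤ) : ℤ[X] := if ε = 1 then X else -1 - X

theorem ptn_tau_comp (ε : ℤ) (h : ε = 1 ∨ ε = -1) :
    (1 + 2 * X : ℤ[X]).comp (ptn_tau ε) = C ε * (1 + 2 * X) := by
  unfold ptn_tau
  have h2 : ∀ q : ℤ[X], (1 + 2 * X : ℤ[X]).comp q = 1 + 2 * q := by
    intro q
    rw [add_comp, mul_comp, X_comp, one_comp, ofNat_comp]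
    rfl
  rcases h with rfl | rfl
  · rw [if_pos rfl, h2, C_1, one_mul]
  · rw [if_neg (by norm_num), h2, C_neg, C_1]
    ring

theorem ptn_tau_tau (ε : ℤ) (h : ε = 1 ∨ ε = -1) :
    (ptn_tau ε).comp (ptn_tau ε) = X := by
  unfold ptn_tau
  rcases h with rfl | rfl
  · rw [if_pos rfl, X_comp]
  · rw [if_neg (by norm_num), sub_comp, neg_comp, one_comp, X_comp]
    ring

theorem ptn_cancel (n δ : ℕ) (A : ℤ[X]) (h : (2 : ℤ[X]) ^ n ∣ X ^ δ * A) : (2 : ℤ[X]) ^ n ∣ A := by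
  have h2 : (2 : ℤ[X]) ^ n = C ((2 : ℤ) ^ n) := by
    rw [C_pow]
    rfl
  rw [h2, C_dvd_iff_dvd_coeff] at h ⊢
  intro i
  have h3 := h (i + δ)
  rwa [coeff_X_pow_mul] at h3

theorem ptn_N {g N : ℕ} (hN : N = 2 * g + 1 ∨ N = 2 * g + 2) : N = 2 * g + ev N + 1 := by
  unfold ev
  rcases hN with rfl | rfl
  · rw [if_neg (by
      rw [Nat.not_even_iff_odd]
      exact ⟨g, rfl⟩)]
  · rw [if_pos ⟨g + 1, by ring⟩]

theorem ptn_BV {p : ℕ} [Fact p.Prime] {N : ℕ} (r : Fin N → ZMod p) (q : ℤ[X]) :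
    (BV r univ ∅ N (X : ℤ[X])).comp q = BV r univ ∅ N q := by
  unfold BV
  rw [← coe_compRingHom_apply, map_sum]
  refine Finset.sum_congr rfl fun k _ => ?_
  rw [map_mul, map_pow, map_intCast, coe_compRingHom_apply, X_comp]

theorem ptn_key {p : ℕ} [Fact p.Prime] (hp4 : p % 4 = 1) {g N : ℕ}
    (hN : N = 2 * g + 1 ∨ N = 2 * g + 2) {c : ZMod p}
    (hc : c ≠ 0) (r : Fin N → ZMod p) (hr : Function.Injective r) {P : ℤ[X]}
    (hP : IsFrobPoly p g (C c * ∏ i, (X - C (r i))) P) :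
    (2 * X : ℤ[X]) ^ (ev N) * P.comp (C (quadraticChar (ZMod p) c) * (1 + 2 * X)) =
      BV r univ ∅ N (1 + 2 * X : ℤ[X]) := by
  have h := (frg_main hp4 hN hc r hr hP).1
  have h2 := congrArg (fun q : ℤ[X] => q.comp (1 + 2 * X)) h
  rw [ptn_BV, mul_comp, pow_comp, sub_comp, X_comp, one_comp, comp_assoc, mul_comp, X_comp,
    C_comp] at h2
  rw [← h2]
  congr 2
  ring

theorem ptn_eps {p : ℕ} [Fact p.Prime] {c : ZMod p} (hc : c ≠ 0) :
    quadraticChar (ZMod p) c = 1 ∨ quadraticChar (ZMod p) c = -1 :=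
  quadraticChar_dichotomy hc

theorem ptn_char {p : ℕ} [Fact p.Prime] (hp4 : p % 4 = 1) : ringChar (ZMod p) ≠ 2 := by
  rw [ZMod.ringChar_zmod_n]
  omega

theorem ptn_four {p : ℕ} [Fact p.Prime] (hp4 : p % 4 = 1) : 4 ∣ Fintype.card (ZMod p) - 1 := by
  rw [ZMod.card]
  omega

theorem ptn_univ {N g : ℕ} (hN : N = 2 * g + 1 ∨ N = 2 * g + 2) :
    (univ : Finset (Fin N)).Nonempty := by
  rw [← Finset.card_pos, Finset.card_univ, Fintype.card_fin]
  omega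

/-- With the given property of `G`. -/
theorem ptn_key2 {p : ℕ} [Fact p.Prime] (hp4 : p % 4 = 1) {g N : ℕ}
    (hN : N = 2 * g + 1 ∨ N = 2 * g + 2) {c : ZMod p}
    (hc : c ≠ 0) (r : Fin N → ZMod p) (hr : Function.Injective r) {P : ℤ[X]}
    (hP : IsFrobPoly p g (C c * ∏ i, (X - C (r i))) P)
    {G : ℤ[X]} (hG : P.comp (1 + 2 * X) = C ((4 : ℤ) ^ g) * G) :
    (2 : ℤ[X]) ^ (2 * g + ev N) * (X ^ (ev N) *
      G.comp (ptn_tau (quadraticChar (ZMod p) c))) = BV r univ ∅ N (1 + 2 * X : ℤ[X]) := by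
  rw [← ptn_key hp4 hN hc r hr hP, ← ptn_tau_comp _ (ptn_eps hc), ← comp_assoc, hG, mul_comp,
    C_comp]
  have h4 : (C ((4 : ℤ) ^ g) : ℤ[X]) = 2 ^ (2 * g) := by
    rw [pow_mul, C_pow]
    congr 1
    norm_num
  rw [h4]
  ring

theorem ptn_G {p : ℕ} [Fact p.Prime] (hp4 : p % 4 = 1) {g N : ℕ}
    (hN : N = 2 * g + 1 ∨ N = 2 * g + 2) {c : ZMod p}
    (hc : c ≠ 0) (r : Fin N → ZMod p) (hr : Function.Injective r) {P : ℤ[X]}
    (hP : IsFrobPoly p g (C c * ∏ i, (X - C (r i))) P) :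
    ∃ G : ℤ[X], P.comp (1 + 2 * X) = C ((4 : ℤ) ^ g) * G := by
  have h1 := ptn_key hp4 hN hc r hr hP
  have h2 := bet_one (ptn_char hp4) r hr univ (ptn_univ hN)
  rw [Finset.card_univ, Fintype.card_fin] at h2
  have h3 : N - 1 = 2 * g + ev N := by
    have := ptn_N hN
    omega
  rw [h3, ← h1, mul_pow, mul_assoc, Nat.add_comm, pow_add] at h2
  have h20 : (2 : ℤ[X]) ≠ 0 := two_ne_zero
  have h4 := (mul_dvd_mul_iff_left (pow_ne_zero (ev N) h20)).1 h2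
  have h5 := ptn_cancel _ _ _ h4
  obtain ⟨G, hG⟩ := h5
  refine ⟨G.comp (ptn_tau (quadraticChar (ZMod p) c)), ?_⟩
  have h6 : P.comp (1 + 2 * X) =
      (P.comp (C (quadraticChar (ZMod p) c) * (1 + 2 * X))).comp
        (ptn_tau (quadraticChar (ZMod p) c)) := by
    rw [comp_assoc, ← ptn_tau_comp _ (ptn_eps hc), comp_assoc, ptn_tau_tau _ (ptn_eps hc), comp_X]
  rw [h6, hG, mul_comp]
  congr 1
  rw [pow_comp, ofNat_comp, pow_mul, C_pow]
  congr 1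
  norm_num

theorem ptn_map {G G' : ℤ[X]} (h : (2 : ℤ[X]) ∣ G - G') :
    G.map (Int.castRingHom (ZMod 2)) = G'.map (Int.castRingHom (ZMod 2)) := by
  obtain ⟨H, hH⟩ := h
  have h1 : G = G' + 2 * H := by rw [← hH]; ring
  rw [h1, Polynomial.map_add, Polynomial.map_mul, Polynomial.map_ofNat]
  have h2 : (OfNat.ofNat 2 : (ZMod 2)[X]) = 0 := by
    have h3 : ((2 : ℕ) : (ZMod 2)[X]) = 0 := by
      rw [← C_eq_natCast]
      have h4 : ((2 : ℕ) : ZMod 2) = 0 := ZMod.natCast_self 2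
      rw [h4, C_0]
    exact h3
  rw [h2, zero_mul, add_zero]

theorem ptn_transfer {p p' : ℕ} [Fact p.Prime] [Fact p'.Prime] (hp4 : p % 4 = 1)
    (hp4' : p' % 4 = 1) {g N : ℕ} (hN : N = 2 * g + 1 ∨ N = 2 * g + 2)
    {c : ZMod p} (hc : c ≠ 0) (r : Fin N → ZMod p) (hr : Function.Injective r) {P : ℤ[X]}
    (hP : IsFrobPoly p g (C c * ∏ i, (X - C (r i))) P)
    {c' : ZMod p'} (hc' : c' ≠ 0) (r' : Fin N → ZMod p') (hr' : Function.Injective r') {P' : ℤ[X]}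
    (hP' : IsFrobPoly p' g (C c' * ∏ i, (X - C (r' i))) P')
    (hcc : quadraticChar (ZMod p) c = quadraticChar (ZMod p') c')
    (hrr : ∀ i j, i ≠ j → quadraticChar (ZMod p) (r i - r j) = quadraticChar (ZMod p') (r' i - r' j))
    {G G' : ℤ[X]} (hG : P.comp (1 + 2 * X) = C ((4 : ℤ) ^ g) * G)
    (hG' : P'.comp (1 + 2 * X) = C ((4 : ℤ) ^ g) * G') :
    G.map (Int.castRingHom (ZMod 2)) = G'.map (Int.castRingHom (ZMod 2)) := by
  have h1 := ptn_key2 hp4 hN hc r hr hP hG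
  have h2 := ptn_key2 hp4' hN hc' r' hr' hP' hG'
  have h3 := bet_transfer (ptn_four hp4) (ptn_four hp4') r r' hr hr' hrr univ (ptn_univ hN)
  rw [Finset.card_univ, Fintype.card_fin, ← h1, ← h2, ← hcc, ← mul_sub, ← mul_sub, ← sub_comp]
    at h3
  have h4 : (2 : ℤ[X]) ^ N = 2 ^ (2 * g + ev N) * 2 ^ 1 := by
    rw [← pow_add, ← ptn_N hN]
  have h20 : (2 : ℤ[X]) ≠ 0 := two_ne_zero
  rw [h4] at h3
  have h5 := (mul_dvd_mul_iff_left (pow_ne_zero _ h20)).1 h3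
  have h6 := ptn_cancel _ _ _ h5
  rw [pow_one] at h6
  obtain ⟨H, hH⟩ := h6
  apply ptn_map
  refine ⟨H.comp (ptn_tau (quadraticChar (ZMod p) c)), ?_⟩
  have h7 : G - G' = ((G - G').comp (ptn_tau (quadraticChar (ZMod p) c))).comp
      (ptn_tau (quadraticChar (ZMod p) c)) := by
    rw [comp_assoc, ptn_tau_tau _ (ptn_eps hc), comp_X]
  rw [h7, hH, mul_comp, ofNat_comp]
  rfl

theorem ptn_sq {p : ℕ} [Fact p.Prime] (hp4 : p % 4 = 1) {g N : ℕ}
    (hN : N = 2 * g + 1 ∨ N = 2 * g + 2) {c : ZMod p}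
    (hc : quadraticChar (ZMod p) c = 1) (r : Fin N → ZMod p)
    (hr : ∀ i j, i ≠ j → quadraticChar (ZMod p) (r i - r j) = 1) {P : ℤ[X]}
    (hP : IsFrobPoly p g (C c * ∏ i, (X - C (r i))) P)
    {G : ℤ[X]} (hG : P.comp (1 + 2 * X) = C ((4 : ℤ) ^ g) * G) :
    G.map (Int.castRingHom (ZMod 2)) = X ^ (2 * g) := by
  have hc0 : c ≠ 0 := by
    rintro rfl
    rw [quadraticChar_zero] at hc
    exact zero_ne_one hc
  have hr' : Function.Injective r := by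
    intro i j hij
    by_contra hne
    have h := hr i j hne
    rw [hij, sub_self, quadraticChar_zero] at h
    exact zero_ne_one h
  have h1 := ptn_key2 hp4 hN hc0 r hr' hP hG
  have h3 := bet_sq (ptn_four hp4) r hr' hr univ (ptn_univ hN)
  have h5 : N - 1 = 2 * g + ev N := by
    have := ptn_N hN
    omega
  have ht : ptn_tau (quadraticChar (ZMod p) c) = X := by
    rw [hc]
    exact if_pos rfl
  rw [ht, comp_X] at h1
  rw [Finset.card_univ, Fintype.card_fin, ← h1, h5] at h3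
  have h4 : (2 : ℤ[X]) ^ N = 2 ^ (2 * g + ev N) * 2 ^ 1 := by
    rw [← pow_add, ← ptn_N hN]
  have h6 : (2 : ℤ[X]) ^ (2 * g + ev N) * (X ^ (ev N) * G) - (2 * X) ^ (2 * g + ev N) =
      2 ^ (2 * g + ev N) * (X ^ (ev N) * (G - X ^ (2 * g))) := by
    rw [mul_pow]
    ring
  have h20 : (2 : ℤ[X]) ≠ 0 := two_ne_zero
  rw [h4, h6] at h3
  have h7 := (mul_dvd_mul_iff_left (pow_ne_zero _ h20)).1 h3
  have h8 := ptn_cancel _ _ _ h7
  rw [pow_one] at h8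
  rw [ptn_map h8, Polynomial.map_pow, Polynomial.map_X]

end Pool.Agent.H99.RG
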