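import Pool.Agent.H48.HC.RKT

/-!
# Project MP_17d720_RG, module Rk5: the rank four case for `p ≡ 1 mod 4`

Auxiliary lemmas: prefix rk5_. Compare `rank_four_case` (Pool/Agent/H48/HC/RKT.lean, complete
argument in its header) and `nfr_main` (Pool/Agent/H99/RM/Nfr.lean). Proof: `b = p β`. For every `σ`:
`σ a = y`, `σ b = z` real (`nfr_re`, `nfr_coe`), all roots of `X^4 + y X^3 + z X^2 + p y X + p^2` satisfy
`‖α‖ ≤ √p`; `rbd_main` (with `A = -y`, `B = z`): `-2p ≤ z ≤ 6p`, (`z = 6p → y^2 = 16p`),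
(`z = -2p → y = 0`). `16 ∣ L(1) + L(-1) = 2 (1 + b + p^2)`, so `8 ∣ 1 + pβ + p^2`; subtract
`(p-1)^2`, a multiple of `16`: `8 ∣ p β + 2 p = p (β + 2)`, and `p` is odd, so `8 ∣ β + 2`
(`x * p + y * 8 = 1`). `β + 2 = 8 γ`, all `σ γ ∈ [0, 1]`: `nfr_unit`: `γ = 0` or `γ = 1`.
`γ = 1`: `b = 6p`, `a^2 = 16 p` in `𝓞 F`; `p ∣ a` (prime), `p^2 ∣ 16 p`, `p ∣ 16`: contradiction, `p`
odd (see the end of `nfr_main`). `γ = 0`: `b = -2p`, `σ a = 0`, `a = 0`.
-/

set_option autoImplicit false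

open Polynomial NumberField Pool.Agent.H99.RM

namespace Pool.Agent.H99.RG

variable {F : Type} [Field F] [NumberField F]

theorem rk5_main [IsTotallyReal F] {p : ℕ} (hp : p.Prime) (h4 : p % 4 = 1)
    (hprime : Prime ((p : ℕ) : 𝓞 F)) {a b : 𝓞 F} {L : (𝓞 F)[X]}
    (hL : L = X ^ 4 + C a * X ^ 3 + C b * X ^ 2 + C ((p : 𝓞 F) * a) * X + C ((p : 𝓞 F) ^ 2))
    (hroot : ∀ σ : F →+* ℂ, ∀ α ∈ (L.map (σ.comp (algebraMap (𝓞 F) F))).roots, ‖α‖ ^ 2 ≤ (p : ℝ))
    (h1 : (16 : 𝓞 F) ∣ L.eval 1) (h2 : (16 : 𝓞 F) ∣ L.eval (-1)) (hb : (p : 𝓞 F) ∣ b) :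
    a = 0 ∧ b = -2 * (p : 𝓞 F) := by
  obtain ⟨β, hβ⟩ := hb
  have hp0 : 0 < p := hp.pos
  have hpR : (0 : ℝ) < (p : ℝ) := by exact_mod_cast hp0
  have hroot' : ∀ σ : F →+* ℂ, ∀ z : ℂ,
      (frobPoly p ((-(nfr_re σ (a : F)) : ℝ) : ℂ) ((nfr_re σ (b : F) : ℝ) : ℂ)).IsRoot z →
        ‖z‖ ≤ √(p : ℝ) := by
    intro σ z hz
    have hmap : L.map (σ.comp (algebraMap (𝓞 F) F)) =
        frobPoly p ((-(nfr_re σ (a : F)) : ℝ) : ℂ) ((nfr_re σ (b : F) : ℝ) : ℂ) := by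
      rw [hL]
      unfold frobPoly
      simp only [Polynomial.map_add, Polynomial.map_mul, Polynomial.map_pow, Polynomial.map_X,
        Polynomial.map_C, map_mul, map_pow, map_natCast, Polynomial.map_natCast, Pool.Agent.H48.HC.RKT_re,
        Complex.ofReal_neg, map_neg]
      ring
    have hmon : (L.map (σ.comp (algebraMap (𝓞 F) F))).Monic := by
      refine Monic.map _ ?_
      rw [hL]
      monicity!
    have hmem : z ∈ (L.map (σ.comp (algebraMap (𝓞 F) F))).roots := by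
      rw [mem_roots hmon.ne_zero, hmap]
      exact hz
    exact Real.le_sqrt_of_sq_le (hroot σ z hmem)
  have hbd : ∀ σ : F →+* ℂ, _ := fun σ => rbd_main p hp0 (-(nfr_re σ (a : F)))
    (nfr_re σ (b : F)) (hroot' σ)
  have he1 : L.eval 1 = 1 + a + b + (p : 𝓞 F) * a + (p : 𝓞 F) ^ 2 := by
    rw [hL]
    simp
  have he2 : L.eval (-1) = 1 - a + b - (p : 𝓞 F) * a + (p : 𝓞 F) ^ 2 := by
    rw [hL]
    simp
    ring
  obtain ⟨q, hq⟩ : ∃ q : ℕ, p = 4 * q + 1 := ⟨p / 4, by omega⟩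
  have hpF : (p : 𝓞 F) = 4 * (q : 𝓞 F) + 1 := by
    rw [hq]
    push_cast
    ring
  obtain ⟨w₂, hw₂⟩ := h1
  obtain ⟨w₁, hw₁⟩ := h2
  rw [he1] at hw₂
  rw [he2] at hw₁
  have h2ne : (2 : 𝓞 F) ≠ 0 := two_ne_zero
  have hw : 1 + b + (p : 𝓞 F) ^ 2 = 8 * (w₁ + w₂) := by
    apply mul_left_cancel₀ h2ne
    linear_combination hw₁ + hw₂
  set γ : 𝓞 F := (4 * (q : 𝓞 F) + 1) * (w₁ + w₂ - 2 * (q : 𝓞 F) ^ 2) -
    (2 * (q : 𝓞 F) ^ 2 + q) * (β + 2) with hγ
  have h3 : β + 2 = 8 * γ := by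
    rw [hγ]
    rw [hβ, hpF] at hw
    linear_combination (4 * (q : 𝓞 F) + 1) * hw
  have h3F : (β : F) + 2 = 8 * (γ : F) := by
    have := congrArg (algebraMap (𝓞 F) F) h3
    rwa [map_add, map_mul, map_ofNat, map_ofNat] at this
  have hβF : (b : F) = (p : F) * (β : F) := by
    have := congrArg (algebraMap (𝓞 F) F) hβ
    rwa [map_mul, map_natCast] at this
  have hγ01 : ∀ σ : F →+* ℂ, 0 ≤ nfr_re σ (γ : F) ∧ nfr_re σ (γ : F) ≤ 1 := by
    intro σ
    have e1 := congrArg (nfr_re σ) h3F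
    have e2 := congrArg (nfr_re σ) hβF
    simp only [map_add, map_mul, map_ofNat, map_natCast] at e1 e2
    obtain ⟨b1, b2, -, -⟩ := hbd σ
    rw [e2] at b1 b2
    have c1 : -2 ≤ nfr_re σ (β : F) := by
      by_contra hc
      push Not at hc
      nlinarith
    have c2 : nfr_re σ (β : F) ≤ 6 := by
      by_contra hc
      push Not at hc
      nlinarith
    constructor <;> linarith
  obtain ⟨σ₀⟩ : Nonempty (F →+* ℂ) := inferInstance
  rcases nfr_unit γ hγ01 with h | h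
  · have hβ2 : β = -2 := by
      rw [h, mul_zero] at h3
      exact eq_neg_of_add_eq_zero_left h3
    have hb : b = -2 * (p : 𝓞 F) := by rw [hβ, hβ2]; ring
    have ha : a = 0 := by
      have h4 : -nfr_re σ₀ (a : F) = 0 := by
        refine (hbd σ₀).2.2.2 ?_
        have e : (β : F) = -2 := by
          rw [hβ2]
          show algebraMap (𝓞 F) F (-2) = -2
          rw [map_neg, map_ofNat]
        rw [hβF, e, map_mul, map_natCast, map_neg, map_ofNat]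
        ring
      have h5 : (a : F) = 0 := by
        apply (nfr_re σ₀).injective
        rw [map_zero]
        linarith
      exact_mod_cast h5
    exact ⟨ha, hb⟩
  · exfalso
    have hβ6 : β = 6 := by
      rw [h, mul_one] at h3
      linear_combination h3
    have ha : a ^ 2 = 16 * (p : 𝓞 F) := by
      have h4 : (-nfr_re σ₀ (a : F)) ^ 2 = 16 * (p : ℝ) := by
        refine (hbd σ₀).2.2.1 ?_
        have e : (β : F) = 6 := by
          rw [hβ6]
          exact map_ofNat (algebraMap (𝓞 F) F) 6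
        rw [hβF, e, map_mul, map_natCast, map_ofNat]
        ring
      rw [neg_sq] at h4
      have h5 : (a : F) ^ 2 = 16 * (p : F) := by
        apply (nfr_re σ₀).injective
        rw [map_pow, h4, map_mul, map_natCast, map_ofNat]
      apply RingOfIntegers.ext
      show algebraMap (𝓞 F) F (a ^ 2) = algebraMap (𝓞 F) F (16 * (p : 𝓞 F))
      rw [map_pow, map_mul, map_ofNat, map_natCast]
      exact h5
    have h5 : ((p : ℕ) : 𝓞 F) ∣ a := hprime.dvd_of_dvd_pow (n := 2) ⟨16, by rw [ha]; ring⟩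
    obtain ⟨c, hc⟩ := h5
    have h6 : (p : 𝓞 F) * c ^ 2 = 16 := by
      apply mul_left_cancel₀ hprime.ne_zero
      rw [hc] at ha
      linear_combination ha
    have h7 : ((p : ℕ) : 𝓞 F) ∣ 2 := by
      refine hprime.dvd_of_dvd_pow (n := 4) ⟨c ^ 2, ?_⟩
      rw [h6]
      norm_num
    obtain ⟨d, hd⟩ := h7
    have h8' : ((p : ℕ) : 𝓞 F) ∣ 1 := by
      refine ⟨1 - d * (2 * (q : 𝓞 F)), ?_⟩
      have : (p : 𝓞 F) = 2 * (2 * (q : 𝓞 F)) + 1 := by rw [hpF]; ring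
      linear_combination (-(2 * (q : 𝓞 F))) * hd - this
    exact hprime.not_isUnit (isUnit_of_dvd_one h8')

end Pool.Agent.H99.RG
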