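import Pool.Agent.H99.RG.Def
import Pool.Agent.H99.RM.Lnk
import Pool.Agent.H99.RM.Trc

/-!
# Project MP_17d720_RG, module Tr2: points modulo `p` and the Cartier-Manin matrix, general `f`

Auxiliary lemmas: prefix tr2_. COPY AND ADAPT Pool/Agent/H99/RM/Trc.lean (there
`f = ∏ (X - C (r l))`, natDegree `2g+1`; here any `f` with `natDegree f ≤ 2g+2`); `p` odd, `g < p`,
`H = cmf g f`.

(1) For `m ≥ 1`, `F_m = f^((p^m - 1)/2)`: the coefficient of `X^(i p^m - j)` in `F_m` is `(H^m)_{ij}`,
`1 ≤ i, j ≤ g`: same induction; now a nonzero term needs `l p - j ≤ (2g+2)(p-1)/2 = (g+1)(p-1)`,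
`l p ≤ (g+1)(p-1) + g = (g+1)p - 1`, so `l ≤ g`.

(2) `F` the field with `q = p^m` elements, `χ(y) = y^((q-1)/2)` in `F`: in `F`,
`∑_x χ(f(x)) = ∑_x F_m(x) = -∑_{j=1}^{g+1} F_m.coeff (j (q-1))` (natDegree of `F_m` is at most
`(g+1)(q-1)`) `= -tr(H^m) - F_m.coeff ((g+1)(q-1))`, and the last coefficient is
`(f.coeff (2g+2))^((q-1)/2)` (`Polynomial.coeff_pow_of_natDegree_le` : `(p^m).coeff (m*n) = (p.coeff n)^m`).

(3) `curvePoints p g f m = ∑_x (1 + χ(f(x))) + (1 + χ(a))`, `a` the image of `f.coeff (2g+2)`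
(`lnk_count` for the affine part; `quadraticChar_card_sqrts` for the second), and
`χ(a) = a^((q-1)/2)` in `F` (also for `a = 0`). `q = 0` in `F`, so the image of `curvePoints` in `F` is
`1 - tr(H^m)`; `ZMod p → F` is injective.
-/

set_option autoImplicit false

namespace Pool.Agent.H99.RG

open Finset Polynomial Pool.Agent.H99.RM Pool.Agent.H48.HC

private theorem tr2_odd (p : ℕ) [Fact p.Prime] (hp : p ≠ 2) : ∃ s, p = 2 * s + 1 := by
  have h := (Fact.out : p.Prime).odd_of_ne_two hp
  exact h

private theorem tr2_odd_pow (p : ℕ) [Fact p.Prime] (hp : p ≠ 2) (m : ℕ) :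
    ∃ s, p ^ m = 2 * s + 1 := by
  have h := (Fact.out : p.Prime).odd_of_ne_two hp
  exact h.pow

private theorem tr2_exp (p : ℕ) [Fact p.Prime] (hp : p ≠ 2) (m : ℕ) :
    (p ^ (m + 1) - 1) / 2 = (p - 1) / 2 + p * ((p ^ m - 1) / 2) := by
  obtain ⟨s, hs⟩ := tr2_odd p hp
  obtain ⟨t, ht⟩ := tr2_odd_pow p hp m
  rw [pow_succ, ht]
  have h1 : (2 * t + 1 - 1) / 2 = t := by omega
  have h2 : (p - 1) / 2 = s := by omega
  rw [h1, h2]
  have h3 : (2 * t + 1) * p = 2 * (s + p * t) + 1 := by
    have : (2 * t + 1) * p = 2 * (p * t) + p := by ring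
    omega
  rw [h3]
  omega

private theorem tr2_coeff (p : ℕ) [Fact p.Prime] (hp : p ≠ 2) {g : ℕ} (hg : g < p)
    (f : (ZMod p)[X]) (hf : f.natDegree ≤ 2 * g + 2) (m : ℕ) (hm : 1 ≤ m) (i j : Fin g) :
    (f ^ ((p ^ m - 1) / 2)).coeff (p ^ m * ((i : ℕ) + 1) - ((j : ℕ) + 1)) =
      ((cmf g f) ^ m) i j := by
  induction m, hm using Nat.le_induction generalizing i j with
  | base => simp only [pow_one]; rfl
  | succ m hm ih =>
    have hp0 : 0 < p := (Fact.out : p.Prime).pos
    have hH : (cmf g f ^ (m + 1)) i j = ∑ l, (cmf g f ^ m) i l * (cmf g f) l j := by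
      rw [pow_succ (cmf g f) m]
      exact Matrix.mul_apply
    rw [hH, tr2_exp p hp m, pow_add, mul_comm p, pow_mul, ← ZMod.expand_card, coeff_mul]
    obtain ⟨s, hs⟩ := tr2_odd p hp
    have hs2 : (p - 1) / 2 = s := by omega
    have hpm : p ≤ p ^ m := by
      calc p = p ^ 1 := (pow_one p).symm
        _ ≤ p ^ m := Nat.pow_le_pow_right hp0 hm
    symm
    have hle : ∀ l : Fin g, (l : ℕ) + 1 ≤ p ^ m * ((i : ℕ) + 1) := by
      intro l
      have h1 := l.2
      have h2 : p ^ m * 1 ≤ p ^ m * ((i : ℕ) + 1) := Nat.mul_le_mul_left _ (by omega)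
      omega
    have hle2 : ∀ l : Fin g, (j : ℕ) + 1 ≤ p * ((l : ℕ) + 1) := by
      intro l
      have h1 := j.2
      have h2 : p * 1 ≤ p * ((l : ℕ) + 1) := Nat.mul_le_mul_left _ (by omega)
      omega
    have key : p ^ (m + 1) * ((i : ℕ) + 1) = p * (p ^ m * ((i : ℕ) + 1)) := by ring
    apply Finset.sum_of_injOn
      (fun l : Fin g => (p * ((l : ℕ) + 1) - ((j : ℕ) + 1),
        p * (p ^ m * ((i : ℕ) + 1) - ((l : ℕ) + 1))))
    · intro l _ l' _ h
      simp only [Prod.mk.injEq] at h
      have h1 := hle2 l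
      have h2 := hle2 l'
      have h3 : p * ((l : ℕ) + 1) = p * ((l' : ℕ) + 1) := by omega
      have h4 := Nat.eq_of_mul_eq_mul_left hp0 h3
      apply Fin.ext
      omega
    · intro l _
      simp only [mem_coe, Finset.HasAntidiagonal.mem_antidiagonal]
      rw [key]
      have h1 := hle l
      have h2 := hle2 l
      rw [Nat.mul_sub]
      have h3 : p * ((l : ℕ) + 1) ≤ p * (p ^ m * ((i : ℕ) + 1)) := Nat.mul_le_mul_left _ h1
      omega
    · rintro ⟨a, b⟩ hab hnot
      simp only [Finset.HasAntidiagonal.mem_antidiagonal] at hab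
      rw [key] at hab
      by_contra hne
      have hne1 := left_ne_zero_of_mul hne
      have hne2 := right_ne_zero_of_mul hne
      simp only [coeff_expand hp0] at hne2
      have hdvd : p ∣ b := by
        by_contra h
        rw [if_neg h] at hne2
        exact hne2 rfl
      obtain ⟨c, rfl⟩ := hdvd
      have hdeg : a ≤ (2 * g + 2) * s := by
        have h := le_natDegree_of_ne_zero hne1
        rw [hs2] at h
        have h2 := natDegree_pow_le (p := f) (n := s)
        calc a ≤ _ := h
          _ ≤ _ := h2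
          _ ≤ s * (2 * g + 2) := Nat.mul_le_mul_left _ hf
          _ = _ := by ring
      apply hnot
      simp only [coe_univ, Set.image_univ, Set.mem_range, Prod.mk.injEq]
      have hj := j.2
      have hN : (j : ℕ) + 1 ≤ p * (p ^ m * ((i : ℕ) + 1)) := by
        have h1 := hle j
        calc (j : ℕ) + 1 ≤ 1 * (p ^ m * ((i : ℕ) + 1)) := by omega
          _ ≤ _ := Nat.mul_le_mul_right _ hp0
      have h5 : a + ((j : ℕ) + 1) + p * c = p * (p ^ m * ((i : ℕ) + 1)) := by omega
      have h6 : p * c < p * (p ^ m * ((i : ℕ) + 1)) := by omega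
      have h7 : c < p ^ m * ((i : ℕ) + 1) := lt_of_mul_lt_mul_left h6 (Nat.zero_le _)
      obtain ⟨L, hL⟩ : ∃ L, p ^ m * ((i : ℕ) + 1) = c + (L + 1) :=
        ⟨p ^ m * ((i : ℕ) + 1) - c - 1, by omega⟩
      have h8 : a + ((j : ℕ) + 1) = p * (L + 1) := by
        rw [hL, Nat.mul_add] at h5
        omega
      have h9 : L < g := by
        by_contra hcon
        push Not at hcon
        have h10 : p * (g + 1) ≤ p * (L + 1) := Nat.mul_le_mul_left _ (by omega)
        have h11 : (2 * g + 2) * s + g < p * (g + 1) := by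
          have : p * (g + 1) = (2 * g + 2) * s + g + 1 := by rw [hs]; ring
          omega
        omega
      refine ⟨⟨L, h9⟩, ?_, ?_⟩
      · simp only
        omega
      · simp only
        rw [hL]
        congr 1
        omega
    · intro l _
      rw [← ih i l]
      simp only
      rw [coeff_expand hp0, if_pos (dvd_mul_right _ _), Nat.mul_div_cancel_left _ hp0, mul_comm]
      rfl

private theorem tr2_sum_pow {F : Type} [Field F] [Fintype F] (a : ℕ) :
    ∑ x : F, x ^ a = if 0 < a ∧ (Fintype.card F - 1) ∣ a then -1 else 0 := by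
  classical
  by_cases ha : a = 0
  · subst ha
    simp
  have h1 : ∑ x : F, x ^ a = ∑ x : Fˣ, (x ^ a : F) := by
    have h2 : ∑ x : F, x ^ a = ∑ x ∈ (univ.filter (fun x : F => x ≠ 0)), x ^ a := by
      rw [sum_filter]
      apply sum_congr rfl
      intro x _
      split_ifs with h
      · rfl
      · push Not at h
        rw [h, zero_pow ha]
    rw [h2]
    symm
    apply Finset.sum_bij (fun (x : Fˣ) _ => (x : F))
    · intro x _
      simp
    · intro x _ y _ h
      exact Units.ext h
    · intro x hx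
      simp only [mem_filter, mem_univ, true_and] at hx
      exact ⟨Units.mk0 x hx, mem_univ _, rfl⟩
    · intro x _
      rfl
  rw [h1, FiniteField.sum_pow_units]
  by_cases h : Fintype.card F - 1 ∣ a
  · rw [if_pos h, if_pos ⟨Nat.pos_of_ne_zero ha, h⟩]
  · rw [if_neg h, if_neg (fun h' => h h'.2)]

private theorem tr2_char (p : ℕ) [Fact p.Prime] (hp : p ≠ 2)
    (F : Type) [Field F] [Algebra (ZMod p) F] : ringChar F ≠ 2 := by
  have h1 : CharP F p := charP_of_injective_algebraMap (algebraMap (ZMod p) F).injective p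
  rw [ringChar.eq_iff.mpr h1]
  exact hp

private theorem tr2_NS (p : ℕ) [Fact p.Prime] (hp : p ≠ 2) {g : ℕ} (hg : g < p)
    (f : (ZMod p)[X]) (hf : f.natDegree ≤ 2 * g + 2) (m : ℕ) (hm : 1 ≤ m)
    (F : Type) [Field F] [Fintype F] [DecidableEq F] [Algebra (ZMod p) F]
    (hF : Fintype.card F = p ^ m) :
    ∑ x : F, ((quadraticChar F (aeval x f) : ℤ) : F) =
      algebraMap (ZMod p) F (-((cmf g f) ^ m).trace - (f.coeff (2 * g + 2)) ^ ((p ^ m - 1) / 2)) := by
  have hchar : ringChar F ≠ 2 := tr2_char p hp F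
  obtain ⟨s, hs⟩ := tr2_odd_pow p hp m
  have hq2 : Fintype.card F / 2 = (p ^ m - 1) / 2 := by rw [hF]; omega
  have hs3 : (p ^ m - 1) / 2 = s := by omega
  set P : (ZMod p)[X] := f ^ ((p ^ m - 1) / 2) with hP
  have hdeg : (P.map (algebraMap (ZMod p) F)).natDegree < (2 * g + 2) * s + 1 := by
    have h1 : (P.map (algebraMap (ZMod p) F)).natDegree ≤ P.natDegree := natDegree_map_le
    have h2 : P.natDegree ≤ ((p ^ m - 1) / 2) * f.natDegree := natDegree_pow_le
    rw [hs3] at h2
    have h4 : s * f.natDegree ≤ s * (2 * g + 2) := Nat.mul_le_mul_left _ hf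
    rw [mul_comm s (2 * g + 2)] at h4
    omega
  have h1 : ∑ x : F, ((quadraticChar F (aeval x f) : ℤ) : F) =
      ∑ x : F, (P.map (algebraMap (ZMod p) F)).eval x := by
    apply sum_congr rfl
    intro x _
    rw [quadraticChar_eq_pow_of_char_ne_two' hchar, hq2, hP, Polynomial.map_pow, eval_pow,
      aeval_def, eval₂_eq_eval_map]
  have h2 : ∑ x : F, (P.map (algebraMap (ZMod p) F)).eval x =
      ∑ a ∈ range ((2 * g + 2) * s + 1), (algebraMap (ZMod p) F (P.coeff a)) *
        (if 0 < a ∧ (Fintype.card F - 1) ∣ a then -1 else 0) := by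
    calc ∑ x : F, (P.map (algebraMap (ZMod p) F)).eval x
        = ∑ x : F, ∑ a ∈ range ((2 * g + 2) * s + 1),
            (algebraMap (ZMod p) F (P.coeff a)) * x ^ a := by
          apply sum_congr rfl
          intro x _
          rw [Polynomial.eval_eq_sum_range' hdeg]
          apply sum_congr rfl
          intro a _
          rw [coeff_map]
      _ = _ := by
          rw [sum_comm]
          apply sum_congr rfl
          intro a _
          rw [← mul_sum, tr2_sum_pow]
  have hs0 : 0 < s := by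
    by_contra hcon
    have : s = 0 := by omega
    rw [this] at hs
    have h3 : 1 < p ^ m := Nat.one_lt_pow (by omega) (Fact.out : p.Prime).one_lt
    omega
  have hcard : Fintype.card F - 1 = 2 * s := by rw [hF]; omega
  have hlast : P.coeff ((2 * g + 2) * s) = (f.coeff (2 * g + 2)) ^ s := by
    rw [hP, hs3, mul_comm (2 * g + 2) s]
    exact coeff_pow_of_natDegree_le hf
  rw [h1, h2, sum_range_succ, hlast, hs3, map_sub, if_pos, mul_neg_one, sub_eq_add_neg]
  swap
  · refine ⟨by positivity, ?_⟩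
    rw [hcard]
    exact ⟨g + 1, by ring⟩
  congr 1
  rw [Matrix.trace, map_neg, map_sum, ← sum_neg_distrib]
  symm
  have hcoef : ∀ j : Fin g, 2 * s * ((j : ℕ) + 1) = p ^ m * ((j : ℕ) + 1) - ((j : ℕ) + 1) := by
    intro j
    rw [hs]
    have : (2 * s + 1) * ((j : ℕ) + 1) = 2 * s * ((j : ℕ) + 1) + ((j : ℕ) + 1) := by ring
    omega
  apply Finset.sum_of_injOn (fun j : Fin g => 2 * s * ((j : ℕ) + 1))
  · intro j _ j' _ h
    simp only at h
    have h4 := Nat.eq_of_mul_eq_mul_left (by omega : 0 < 2 * s) h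
    apply Fin.ext
    omega
  · intro j _
    simp only [coe_range, Set.mem_Iio]
    have hj := j.2
    have h5 : 2 * s * ((j : ℕ) + 1) ≤ 2 * s * g := Nat.mul_le_mul_left _ (by omega)
    have h6 : 2 * s * g = 2 * g * s := by ring
    have h7 : (2 * g + 2) * s = 2 * g * s + 2 * s := by ring
    omega
  · intro a ha hnot
    rw [if_neg, mul_zero]
    rintro ⟨ha0, b, hb⟩
    apply hnot
    rw [hcard] at hb
    simp only [mem_range] at ha
    have hb0 : 0 < b := by
      by_contra hcon
      have : b = 0 := by omega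
      rw [this] at hb
      omega
    have hbg : b < g + 1 := by
      by_contra hcon
      push Not at hcon
      have h5 : 2 * s * (g + 1) ≤ 2 * s * b := Nat.mul_le_mul_left _ hcon
      have h6 : 2 * s * (g + 1) = 2 * g * s + 2 * s := by ring
      have h7 : (2 * g + 2) * s = 2 * g * s + 2 * s := by ring
      omega
    simp only [coe_univ, Set.image_univ, Set.mem_range]
    refine ⟨⟨b - 1, by omega⟩, ?_⟩
    simp only
    rw [hb]
    congr 1
    omega
  · intro j _
    rw [if_pos]
    · rw [Matrix.diag_apply, ← tr2_coeff p hp hg f hf m hm j j, hcoef j]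
      ring
    · refine ⟨by positivity, ?_⟩
      rw [hcard]
      exact dvd_mul_right _ _

theorem tr2_main (p : ℕ) [Fact p.Prime] (hp : p ≠ 2) {g : ℕ} (hg : g < p)
    (f : (ZMod p)[X]) (hf : f.natDegree ≤ 2 * g + 2) (m : ℕ) (hm : 1 ≤ m) :
    ((curvePoints p g f m : ℕ) : ZMod p) = 1 - ((cmf g f) ^ m).trace := by
  classical
  apply (algebraMap (ZMod p) (GaloisField p m)).injective
  rw [map_natCast]
  let _ : Fintype (GaloisField p m) := Fintype.ofFinite (GaloisField p m)
  have hF : Fintype.card (GaloisField p m) = p ^ m := by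
    rw [← Nat.card_eq_fintype_card]
    exact GaloisField.card p m (by omega)
  have hchar : ringChar (GaloisField p m) ≠ 2 := tr2_char p hp (GaloisField p m)
  have h1 := lnk_count (F := GaloisField p m) hchar (fun x => aeval x f)
  have h2 : ((Nat.card {w : GaloisField p m //
      w ^ 2 = algebraMap (ZMod p) (GaloisField p m) (f.coeff (2 * g + 2))} : ℕ) : ℤ) =
      quadraticChar (GaloisField p m)
        (algebraMap (ZMod p) (GaloisField p m) (f.coeff (2 * g + 2))) + 1 := by
    have h3 := quadraticChar_card_sqrts hchar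
      (algebraMap (ZMod p) (GaloisField p m) (f.coeff (2 * g + 2)))
    rw [← h3, Nat.card_eq_fintype_card, Fintype.card_subtype, Set.toFinset_ofPred]
  have h3 : ((curvePoints p g f m : ℕ) : GaloisField p m) =
      (((Nat.card {P : GaloisField p m × GaloisField p m // P.2 ^ 2 = aeval P.1 f} : ℕ) : ℤ) :
        GaloisField p m) + (((Nat.card {w : GaloisField p m //
      w ^ 2 = algebraMap (ZMod p) (GaloisField p m) (f.coeff (2 * g + 2))} : ℕ) : ℤ) :
        GaloisField p m) := by
    unfold curvePoints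
    push_cast
    rfl
  have h4 : ((Fintype.card (GaloisField p m) : ℕ) : GaloisField p m) = 0 := by
    rw [hF, Nat.cast_pow, CharP.cast_eq_zero (GaloisField p m) p, zero_pow (by omega)]
  have h5 : ((quadraticChar (GaloisField p m)
        (algebraMap (ZMod p) (GaloisField p m) (f.coeff (2 * g + 2))) : ℤ) : GaloisField p m) =
      algebraMap (ZMod p) (GaloisField p m) ((f.coeff (2 * g + 2)) ^ ((p ^ m - 1) / 2)) := by
    obtain ⟨s, hs⟩ := tr2_odd_pow p hp m
    have hq2 : Fintype.card (GaloisField p m) / 2 = (p ^ m - 1) / 2 := by rw [hF]; omega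
    rw [quadraticChar_eq_pow_of_char_ne_two' hchar, hq2, map_pow]
  rw [h3, h1, h2, Int.cast_add, Int.cast_sum, Int.cast_natCast, Int.cast_add, Int.cast_one,
    h4, h5, tr2_NS p hp hg f hf m hm (GaloisField p m) hF, map_sub, map_sub, map_neg, map_one]
  ring

end Pool.Agent.H99.RG
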